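import Pool.Agent.H.MP_31fefb_co.B

namespace Pool.Agent.H.MP_420e77_co

open SimpleGraph Pool.Agent.Lib.helper5.PTree Pool.Agent.H.MP_31fefb_co

variable {V W : Type} {G G' : SimpleGraph V}

/-- reachability inside a set -/
def R (G : SimpleGraph V) (S : Set V) : V → V → Prop :=
  Relation.ReflTransGen fun a b => G.Adj a b ∧ a ∈ S ∧ b ∈ S

lemma R.adj {S : Set V} {a b : V} (h : G.Adj a b) (ha : a ∈ S) (hb : b ∈ S) : R G S a b :=
  Relation.ReflTransGen.single ⟨h, ha, hb⟩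

lemma R.tr {S : Set V} {a b c : V} (h : R G S a b) (h' : R G S b c) : R G S a c :=
  Relation.ReflTransGen.trans h h'

lemma R.rfl {S : Set V} {a : V} : R G S a a := Relation.ReflTransGen.refl

lemma R.symm {S : Set V} {a b : V} (h : R G S a b) : R G S b a := by
  induction h with
  | refl => exact .rfl
  | tail _ h ih => exact (R.adj h.1.symm h.2.2 h.2.1).tr ih

lemma R.lift {S : Set V} {a b : V} (h : R G S a b) {H : SimpleGraph W} {T : Set W} (f : V → W)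
    (hf : ∀ x y, G.Adj x y → x ∈ S → y ∈ S → R H T (f x) (f y)) : R H T (f a) (f b) := by
  induction h with
  | refl => exact .rfl
  | tail _ h ih => exact ih.tr (hf _ _ h.1 h.2.1 h.2.2)

lemma R.mono {S S' : Set V} {a b : V} (h : R G S a b) (h1 : G ≤ G') (h2 : S ⊆ S') : R G' S' a b :=
  h.lift id fun _ _ e a b => .adj (h1 e) (h2 a) (h2 b)

/-- preconnected sets -/
def Pre (G : SimpleGraph V) (S : Set V) : Prop := ∀ a ∈ S, ∀ b ∈ S, R G S a b

lemma pre_iff {S : Set V} : (G.induce S).Preconnected ↔ Pre G S := by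
  constructor
  · intro h a ha b hb
    obtain ⟨p⟩ := h ⟨a, ha⟩ ⟨b, hb⟩
    have : ∀ {x y : S} (_ : (G.induce S).Walk x y), R G S x y := fun p => by
      induction p with
      | nil => exact .rfl
      | @cons x y z e _ ih => exact (R.adj (G := G) e x.2 y.2).tr ih
    exact this p
  · rintro h ⟨a, ha⟩ ⟨b, hb⟩
    have := h a ha b hb
    induction this with
    | refl => rfl
    | tail _ h2 ih => exact (ih h2.2.1).trans (Adj.reachable (G := G.induce S) h2.1)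

lemma conn_iff {S : Set V} : (G.induce S).Connected ↔ S.Nonempty ∧ Pre G S := by
  rw [connected_iff, pre_iff, Set.nonempty_coe_sort, and_comm]

lemma pre_root {S : Set V} (r : V) (h : ∀ a ∈ S, R G S r a) : Pre G S :=
  fun a ha b hb => (h a ha).symm.tr (h b hb)

lemma pre_single (a : V) : Pre G {a} := pre_root a (by rintro _ rfl; exact .rfl)

lemma walk_R {a b : V} (p : G.Walk a b) {S : Set V} (h : ∀ z ∈ p.support, z ∈ S) : R G S a b := by
  induction p with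
  | nil => exact .rfl
  | cons e p ih =>
    exact (R.adj e (h _ (by simp)) (h _ (by simp))).tr (ih fun z hz => h z (by simp [hz]))

/-- families of bags of a tree -/
def Tr (F : Set (Set V)) : Prop :=
  ∃ (ι : Type) (_ : Finite ι) (root : ι) (par : ι → ι) (rk : ι → ℕ) (bag : ι → Set V),
    (∀ v, v ≠ root → rk (par v) < rk v) ∧ Set.range bag = F ∧
      ∀ v, Pre (PT root par) {t | v ∈ bag t}

lemma Tr.single (X : Set V) : Tr {X} :=
  ⟨Unit, inferInstance, (), id, fun _ => 0, fun _ => X, fun _ h => absurd rfl h, by simp,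
    fun _ _ _ _ _ => .rfl⟩

lemma Tr.nonempty {F : Set (Set V)} (h : Tr F) : F.Nonempty := by
  obtain ⟨ι, _, r, par, rk, bag, -, rfl, -⟩ := h
  exact ⟨_, r, rfl⟩

lemma Tr.leaf {F : Set (Set V)} (h : Tr F) {X B : Set V} (hX : X ∈ F)
    (hB : ∀ v ∈ B, ∀ Y ∈ F, v ∈ Y → v ∈ X) : Tr (insert B F) := by
  obtain ⟨ι, _, r, par, rk, bag, h1, rfl, h2⟩ := h
  obtain ⟨t, rfl⟩ := hX
  refine ⟨Option ι, inferInstance, some r, fun o => some (o.elim t par),
    fun o => o.elim (rk t + 1) rk, fun o => o.elim B bag, ?_, ?_, fun v => ?_⟩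
  · rintro (_ | s) hs
    · simp
    · exact h1 s (by simpa using hs)
  · rw [Option.range_eq]
    rfl
  · have l : ∀ a b, v ∈ bag a → v ∈ bag b → R (PT (some r) fun o => some (o.elim t par))
        {o : Option ι | v ∈ o.elim B bag} (some a) (some b) := fun a b ha hb =>
      (h2 v a ha b hb).lift some fun x y h p q => .adj (by simpa [PT] using h) p q
    have m : ∀ a, v ∈ bag a → v ∈ B → R (PT (some r) fun o => some (o.elim t par))
        {o : Option ι | v ∈ o.elim B bag} none (some a) := fun a ha hb =>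
      (R.adj (b := some t) (by simp [PT]) hb (hB v hb _ ⟨a, rfl⟩ ha)).tr
        (l t a (hB v hb _ ⟨a, rfl⟩ ha) ha)
    rintro (_ | a) ha (_ | b) hb
    · exact .rfl
    · exact m b hb ha
    · exact (m a ha hb).symm
    · exact l a b ha hb

lemma Tr.map {F : Set (Set V)} (h : Tr F) (φ : Set V → Set V)
    (hφ : ∀ v, (∀ X, v ∈ φ X) ∨ (∀ X, v ∉ φ X) ∨ ∃ y z, (∀ X, v ∈ φ X ↔ y ∈ X ∨ z ∈ X) ∧
      (y = z ∨ ∃ X ∈ F, y ∈ X ∧ z ∈ X)) : Tr (φ '' F) := by
  obtain ⟨ι, _, r, par, rk, bag, h1, rfl, h2⟩ := h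
  refine ⟨ι, inferInstance, r, par, rk, φ ∘ bag, h1, Set.range_comp _ _, fun v => ?_⟩
  rcases hφ v with h | h | ⟨y, z, h, h'⟩
  · exact pre_iff.1 (sub_conn rk h1 _ r (h _) fun s _ e => ⟨e, h _⟩).preconnected
  · exact fun a ha => absurd ha (h _)
  · rcases h' with rfl | ⟨_, ⟨t, rfl⟩, hy, hz⟩
    · simpa [h] using h2 y
    · refine pre_root t fun a ha => ?_
      rcases (h _).1 ha with ha | ha
      · exact (h2 y t hy a ha).mono le_rfl fun s hs => (h _).2 (Or.inl hs)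
      · exact (h2 z t hz a ha).mono le_rfl fun s hs => (h _).2 (Or.inr hs)

/-- weak tree-decompositions -/
def TD (G : SimpleGraph V) (w : ℕ) : Prop :=
  ∃ F, Tr F ∧ (∀ u v, G.Adj u v → ∃ X ∈ F, u ∈ X ∧ v ∈ X) ∧ ∀ X ∈ F, X.ncard ≤ w + 1

lemma TD.mono {w w' : ℕ} (h : TD G w) (h1 : G' ≤ G) (h2 : w ≤ w') : TD G' w' := by
  obtain ⟨F, a, b, c⟩ := h
  exact ⟨F, a, fun u v e => b u v (h1 e), fun X hX => (c X hX).trans (by omega)⟩

lemma TD.cov [Finite V] {w : ℕ} (h : TD G w) : ∃ F, Tr F ∧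
    (∀ u v, G.Adj u v → ∃ X ∈ F, u ∈ X ∧ v ∈ X) ∧ (∀ X ∈ F, X.ncard ≤ w + 1) ∧
      ∀ v, ∃ X ∈ F, v ∈ X := by
  obtain ⟨F, a, b, c⟩ := h
  have : ∀ U : Set V, U.Finite → ∃ F', Tr F' ∧ F ⊆ F' ∧ (∀ X ∈ F', X.ncard ≤ w + 1) ∧
      ∀ v ∈ U, ∃ X ∈ F', v ∈ X := by
    intro U hU
    induction U, hU using Set.Finite.induction_on with
    | empty => exact ⟨F, a, le_rfl, c, by simp⟩
    | @insert v U _ _ ih =>
      obtain ⟨F', a1, a2, a3, a4⟩ := ih
      by_cases hv : ∃ X ∈ F', v ∈ X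
      · exact ⟨F', a1, a2, a3, by rintro y (rfl | hy); exacts [hv, a4 y hy]⟩
      · obtain ⟨X, hX⟩ := a1.nonempty
        refine ⟨_, a1.leaf (B := {v}) hX (by rintro _ rfl Y hY h; exact absurd ⟨Y, hY, h⟩ hv),
          a2.trans (Set.subset_insert _ _), ?_, ?_⟩
        · rintro Y (rfl | hY)
          · simp
          · exact a3 Y hY
        · rintro y (rfl | hy)
          · exact ⟨_, Or.inl rfl, rfl⟩
          · obtain ⟨Y, h1, h2⟩ := a4 y hy
            exact ⟨Y, Or.inr h1, h2⟩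
  obtain ⟨F', a1, a2, a3, a4⟩ := this _ Set.finite_univ
  exact ⟨F', a1, fun u v e => (b u v e).imp fun X h => ⟨a2 h.1, h.2⟩, a3, fun v => a4 v trivial⟩

lemma TD.dec [Finite V] {w : ℕ} (h : TD G w) : HasTreeDec G w := by
  obtain ⟨F', ⟨ι, _, r, par, rk, bag, h1, rfl, h2⟩, b, a3, a4⟩ := h.cov
  refine ⟨ι, inferInstance, _, bag, isTree rk h1, fun u v e => ?_, fun v => conn_iff.2 ⟨?_, h2 v⟩,
    fun t => a3 _ ⟨t, rfl⟩⟩
  · obtain ⟨_, ⟨t, rfl⟩, h⟩ := b u v e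
    exact ⟨t, h⟩
  · obtain ⟨_, ⟨t, rfl⟩, h⟩ := a4 v
    exact ⟨t, h⟩

/-- delete all edges at a set -/
def del (G : SimpleGraph V) (Z : Set V) : SimpleGraph V where
  Adj a b := G.Adj a b ∧ a ∉ Z ∧ b ∉ Z
  symm := ⟨fun _ _ h => ⟨h.1.symm, h.2.2, h.2.1⟩⟩
  loopless := ⟨fun _ h => h.1.ne rfl⟩

lemma del_le (Z : Set V) : del G Z ≤ G := fun _ _ h => h.1

lemma TD.add [Finite V] {w : ℕ} {Z : Set V} (h : TD (del G Z) w) : TD G (w + Z.ncard) := by
  obtain ⟨F, a, b, c, d⟩ := h.cov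
  refine ⟨_, a.map (· ∪ Z) fun v => ?_, fun u v e => ?_, ?_⟩
  · by_cases e : v ∈ Z
    · exact Or.inl fun X => Or.inr e
    · exact Or.inr (Or.inr ⟨v, v, fun X => by simp [e], Or.inl rfl⟩)
  · by_cases e1 : u ∈ Z
    · obtain ⟨X, p, q⟩ := d v
      exact ⟨_, ⟨X, p, rfl⟩, Or.inr e1, Or.inl q⟩
    by_cases e2 : v ∈ Z
    · obtain ⟨X, p, q⟩ := d u
      exact ⟨_, ⟨X, p, rfl⟩, Or.inl q, Or.inr e2⟩
    obtain ⟨X, p, q⟩ := b u v ⟨e, e1, e2⟩
    exact ⟨_, ⟨X, p, rfl⟩, Or.inl q.1, Or.inl q.2⟩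
  · rintro _ ⟨X, p, rfl⟩
    have := c X p
    have := Set.ncard_union_le X Z
    simp only
    omega

/-- suppress a vertex -/
def sup (G : SimpleGraph V) (u a b : V) : SimpleGraph V := del G {u} ⊔ edge a b

lemma TD.contract [Finite V] {w : ℕ} (h : TD G w) {u a b : V} (ha : G.Adj u a)
    (hb : G.Adj u b) : TD (sup G u a b) w := by
  classical
  obtain ⟨F, h1, h2, h3⟩ := h
  let π : V → V := fun x => if x = u then a else x
  have pa : π a = a := if_neg ha.ne'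
  have pu : π u = a := if_pos rfl
  refine ⟨_, h1.map (π '' ·) fun v => ?_, ?_, ?_⟩
  · by_cases e : v = u
    · refine Or.inr (Or.inl ?_)
      rintro X ⟨x, -, hx⟩
      by_cases e' : x = u
      · exact ha.ne' (by rw [← pu, ← e', hx, e, e'])
      · exact e' (by rw [← e, ← hx]; exact (if_neg e').symm)
    · refine Or.inr (Or.inr ⟨v, if v = a then u else v, fun X => ?_, ?_⟩)
      · constructor
        · rintro ⟨x, hx, rfl⟩
          by_cases e' : x = u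
          · subst e'
            simp [pu, hx]
          · simp [π, e', hx]
        · rintro (hx | hx)
          · exact ⟨v, hx, if_neg e⟩
          · refine ⟨_, hx, ?_⟩
            split_ifs with c
            · rw [pu, c]
            · exact if_neg e
      · split_ifs with c
        · rw [c]
          exact Or.inr (h2 _ _ ha.symm)
        · exact Or.inl rfl
  · have k : ∃ X ∈ (π '' ·) '' F, a ∈ X ∧ b ∈ X := by
      obtain ⟨X, hX, p, q⟩ := h2 _ _ hb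
      exact ⟨_, ⟨X, hX, rfl⟩, ⟨u, p, pu⟩, ⟨b, q, if_neg hb.ne'⟩⟩
    rintro x y (e | e)
    · obtain ⟨X, hX, p, q⟩ := h2 _ _ e.1
      exact ⟨_, ⟨X, hX, rfl⟩, ⟨x, p, if_neg e.2.1⟩, ⟨y, q, if_neg e.2.2⟩⟩
    · rcases ((edge_adj _ _ _ _).1 e).1 with ⟨rfl, rfl⟩ | ⟨rfl, rfl⟩
      · exact k
      · simpa only [and_comm] using k
  · rintro _ ⟨X, hX, rfl⟩
    exact (Set.ncard_image_le).trans (h3 X hX)

lemma TD.unsup [Finite V] {w : ℕ} {u a b : V} (h : TD (sup G u a b) w) (hw : 2 ≤ w)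
    (ha : u ≠ a) (hb : u ≠ b) (hu : ∀ y, G.Adj u y → y = a ∨ y = b) : TD G w := by
  obtain ⟨F, h1, h2, h3⟩ := h
  have t := h1.map (· \ {u}) fun v => by
    by_cases e : v = u
    · exact Or.inr (Or.inl fun X h => h.2 e)
    · exact Or.inr (Or.inr ⟨v, v, fun X => by simp [e], Or.inl rfl⟩)
  have : ∃ X ∈ F, ∀ Y ∈ F, (a ∈ Y → a ∈ X) ∧ (b ∈ Y → b ∈ X) := by
    by_cases e : a = b
    · subst e
      by_cases c : ∃ X ∈ F, a ∈ X
      · obtain ⟨X, p, q⟩ := c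
        exact ⟨X, p, fun _ _ => ⟨fun _ => q, fun _ => q⟩⟩
      · obtain ⟨X, p⟩ := h1.nonempty
        exact ⟨X, p, fun Y hY => ⟨fun q => absurd ⟨Y, hY, q⟩ c, fun q => absurd ⟨Y, hY, q⟩ c⟩⟩
    · obtain ⟨X, p, q⟩ := h2 a b (Or.inr ((edge_adj _ _ _ _).2 ⟨Or.inl ⟨rfl, rfl⟩, e⟩))
      exact ⟨X, p, fun _ _ => ⟨fun _ => q.1, fun _ => q.2⟩⟩
  obtain ⟨X, hX, hX'⟩ := this
  refine ⟨_, t.leaf (B := {u, a, b}) ⟨X, hX, rfl⟩ ?_, fun x y e => ?_, ?_⟩
  · rintro v hv _ ⟨Y, hY, rfl⟩ ⟨p, q⟩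
    rcases hv with rfl | rfl | rfl
    · exact absurd rfl q
    · exact ⟨(hX' Y hY).1 p, q⟩
    · exact ⟨(hX' Y hY).2 p, q⟩
  · by_cases e1 : x = u
    · subst e1
      exact ⟨_, Or.inl rfl, Or.inl rfl, Or.inr (hu y e)⟩
    by_cases e2 : y = u
    · subst e2
      exact ⟨_, Or.inl rfl, Or.inr (hu x e.symm), Or.inl rfl⟩
    obtain ⟨Y, hY, p, q⟩ := h2 x y (Or.inl ⟨e, e1, e2⟩)
    exact ⟨_, Or.inr ⟨Y, hY, rfl⟩, ⟨p, e1⟩, ⟨q, e2⟩⟩
  · rintro _ (rfl | ⟨Y, hY, rfl⟩)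
    · exact (Set.ncard_insert_le _ _).trans (by
        have := Set.ncard_insert_le a ({b} : Set V)
        simp only [Set.ncard_singleton] at this
        omega)
    · exact (Set.ncard_le_ncard Set.diff_subset).trans (h3 Y hY)

end Pool.Agent.H.MP_420e77_co
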