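import Pool.Agent.H.MP_420e77_co.A

namespace Pool.Agent.H.MP_420e77_co

open SimpleGraph

variable {V : Type} {G : SimpleGraph V}

/-- inner boundary -/
def bd (G : SimpleGraph V) (E : Set V) : Set V := {u | u ∈ E ∧ ∃ v, G.Adj u v ∧ v ∉ E}

/-- neighbours outside `E` -/
def NR (G : SimpleGraph V) (E J : Set V) : Set V := {y | y ∉ E ∧ ∃ a ∈ J, G.Adj a y}

/-- decomposition of the part outside `E` -/
def GD (G : SimpleGraph V) (w : ℕ) (E : Set V) : Prop :=
  ∃ F, Tr F ∧ (∀ u v, G.Adj u v → u ∉ E → ∃ X ∈ F, u ∈ X ∧ v ∈ X) ∧ (∀ X ∈ F, X.ncard ≤ w + 1) ∧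
    (∃ X ∈ F, bd G E ⊆ X) ∧ ∀ X ∈ F, ∀ v ∈ X, v ∈ E → v ∈ bd G E

lemma GD.step {w : ℕ} {E Y : Set V} (h : GD G w (E ∪ Y)) (hY : Disjoint Y E)
    (hb : (bd G E ∪ Y).ncard ≤ w + 1) : GD G w E := by
  obtain ⟨F, h1, h2, h3, ⟨X, hX, h4⟩, h5⟩ := h
  refine ⟨_, h1.leaf (B := bd G E ∪ Y) hX fun v hv Z hZ h => h4 (h5 Z hZ v h
    (hv.imp (·.1) id)), fun u v e hu => ?_, ?_, ⟨_, Or.inl rfl, Set.subset_union_left⟩, ?_⟩
  · by_cases c : u ∈ Y
    · by_cases c' : v ∈ E ∪ Y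
      · exact ⟨_, Or.inl rfl, Or.inr c, c'.imp (fun q => ⟨q, u, e.symm, hu⟩) id⟩
      · obtain ⟨Z, p, q⟩ := h2 v u e.symm c'
        exact ⟨Z, Or.inr p, q.symm⟩
    · obtain ⟨Z, p, q⟩ := h2 u v e (by simp [hu, c])
      exact ⟨Z, Or.inr p, q⟩
  · rintro _ (rfl | h)
    exacts [hb, h3 _ h]
  · rintro _ (rfl | h) v hv e
    · exact hv.resolve_right fun c => Set.disjoint_left.1 hY c e
    · obtain ⟨-, y, p, q⟩ := h5 _ h v hv (Or.inl e)
      exact ⟨e, y, p, fun c => q (Or.inl c)⟩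

/-- no large star minor -/
def NoStar (G : SimpleGraph V) (s : ℕ) : Prop :=
  ∀ S L : Set V, S.Nonempty → Pre G S → Disjoint L S → (∀ l ∈ L, ∃ y ∈ S, G.Adj y l) → L.ncard < s

lemma Pre.grow {S J : Set V} (h : Pre G S) (hJ : ∀ a ∈ J, ∃ y ∈ S, G.Adj y a) : Pre G (S ∪ J) := by
  have : ∀ a ∈ S ∪ J, ∃ y ∈ S, R G (S ∪ J) y a := by
    rintro a (ha | ha)
    · exact ⟨a, ha, .rfl⟩
    · obtain ⟨y, p, q⟩ := hJ a ha
      exact ⟨y, p, .adj q (Or.inl p) (Or.inr ha)⟩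
  intro a ha b hb
  obtain ⟨y, p, q⟩ := this a ha
  obtain ⟨z, p', q'⟩ := this b hb
  exact q.symm.tr (((h y p z p').mono le_rfl Set.subset_union_left).tr q')

lemma process [Finite V] {s w : ℕ} (hs : NoStar G s) (Z : V → Set V) (M : V → ℕ)
    (h1 : ∀ r, (Z r).ncard + M r ≤ w) (h2 : ∀ r, 1 ≤ M r) (h3 : ∀ r, ∀ z ∈ Z r, G.Reachable r z)
    (hk : ∀ r E, Z r ⊆ E → (∀ a ∈ bd G E, G.Reachable r a) →
      (∀ J ⊆ bd G E \ Z r, J.Nonempty → ((bd G E \ Z r) \ J).ncard + (NR G E J).ncard < s) →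
      ∀ x ∈ bd G E \ Z r, (∀ a ∈ bd G E \ Z r, (NR G E {x}).ncard ≤ (NR G E {a}).ncard) →
        2 ≤ (NR G E {x}).ncard → (bd G E \ Z r).ncard + (NR G E {x}).ncard ≤ M r + 1) :
    TD G w := by
  have key : ∀ n, ∀ E : Set V, Eᶜ.ncard = n → (bd G E = ∅ ∨ ∃ r, Z r ⊆ E ∧
      (∀ a ∈ bd G E, G.Reachable r a) ∧ (bd G E \ Z r).ncard ≤ M r ∧ ∃ S : Set V,
        (∀ y ∈ S, y ∈ E ∧ y ∉ bd G E) ∧ ∀ J ⊆ bd G E \ Z r, J.Nonempty → Pre G (S ∪ J) ∧
          ∀ a ∈ bd G E \ Z r, a ∉ J → ∃ y ∈ S, G.Adj y a) → GD G w E := by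
    intro n
    induction n using Nat.strong_induction_on with
    | _ n ih =>
    intro E hn hE
    have lt : ∀ Y : Set V, Disjoint Y E → Y.Nonempty → (E ∪ Y)ᶜ.ncard < n := by
      rintro Y hY ⟨y, hy⟩
      rw [← hn]
      exact Set.ncard_lt_ncard ⟨Set.compl_subset_compl.2 Set.subset_union_left,
        fun c => c (Set.disjoint_left.1 hY hy) (Or.inr hy)⟩
    have sub : ∀ Y : Set V, bd G (E ∪ Y) ⊆ bd G E ∪ Y := by
      rintro Y u ⟨hu | hu, v, p, q⟩
      · exact Or.inl ⟨hu, v, p, fun c => q (Or.inl c)⟩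
      · exact Or.inr hu
    have one : ∀ r y (Y : Set V), Disjoint Y E → Y.Nonempty → Z r ⊆ E ∪ Y → G.Reachable r y →
        bd G E ∪ Y ⊆ insert y (Z r) → GD G w E := by
      intro r y Y d ne a b c
      have e : bd G (E ∪ Y) \ Z r ⊆ {y} := fun u hu => (c (sub Y hu.1)).resolve_right hu.2
      refine (ih _ (lt Y d ne) _ rfl (Or.inr ⟨r, a, fun u hu => ?_, ?_, ∅, by simp,
        fun J hJ ⟨x, hx⟩ => ?_⟩)).step d ?_
      · rcases c (sub Y hu) with rfl | h
        exacts [b, h3 r u h]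
      · exact ((Set.ncard_le_ncard e).trans (by simp)).trans (h2 r)
      · have e1 : x = y := e (hJ hx)
        subst e1
        have : J = {x} := Set.Subset.antisymm (hJ.trans e) (by simpa using hx)
        subst this
        exact ⟨by simpa using pre_single x, fun a ha h => absurd (e ha) h⟩
      · have := Set.ncard_le_ncard c
        have := Set.ncard_insert_le y (Z r)
        have := h1 r
        omega
    rcases hE with hE | ⟨r, a1, a2, a3, S, a4, a5⟩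
    · by_cases c : ∃ r, r ∉ E
      · obtain ⟨r, hr⟩ := c
        refine one r r (insert r (Z r) \ E) Set.disjoint_sdiff_left ⟨r, Or.inl rfl, hr⟩
          (fun z hz => ?_) .rfl (by rw [hE, Set.empty_union]; exact Set.diff_subset)
        by_cases e : z ∈ E
        exacts [Or.inl e, Or.inr ⟨Or.inr hz, e⟩]
      · push Not at c
        exact ⟨_, Tr.single ∅, fun u v _ h => absurd (c u) h, by simp, ⟨_, rfl, hE.le⟩, by simp⟩
    rcases (bd G E \ Z r).eq_empty_or_nonempty with c | c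
    · rcases (bd G E).eq_empty_or_nonempty with c' | ⟨z, hz⟩
      · by_cases c : ∃ r, r ∉ E
        · obtain ⟨r, hr⟩ := c
          refine one r r (insert r (Z r) \ E) Set.disjoint_sdiff_left ⟨r, Or.inl rfl, hr⟩
            (fun z hz => ?_) .rfl (by rw [c', Set.empty_union]; exact Set.diff_subset)
          by_cases e : z ∈ E
          exacts [Or.inl e, Or.inr ⟨Or.inr hz, e⟩]
        · push Not at c
          exact ⟨_, Tr.single ∅, fun u v _ h => absurd (c u) h, by simp, ⟨_, rfl, c'.le⟩, by simp⟩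
      · obtain ⟨y, p, q⟩ := hz.2
        refine one r y {y} (by simpa using q) ⟨y, rfl⟩ (a1.trans Set.subset_union_left)
          ((a2 z hz).trans p.reachable) ?_
        rintro u (hu | rfl)
        · exact Or.inr (Set.diff_eq_empty.1 c hu)
        · exact Or.inl rfl
    obtain ⟨x, hx, hm⟩ := Set.exists_min_image _ (fun a => (NR G E {a}).ncard) (Set.toFinite _) c
    have d : Disjoint (NR G E {x}) E := Set.disjoint_left.2 fun y hy => hy.1
    have ne : (NR G E {x}).Nonempty := by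
      obtain ⟨y, p, q⟩ := hx.1.2
      exact ⟨y, q, x, rfl, p⟩
    have b1 : (bd G E \ Z r).ncard + (NR G E {x}).ncard ≤ M r + 1 := by
      by_cases c2 : 2 ≤ (NR G E {x}).ncard
      · refine hk r E a1 a2 (fun J hJ hn => ?_) x hx hm c2
        rw [← Set.ncard_union_eq (Set.disjoint_left.2 fun y p q => q.1 p.1.1.1)]
        refine hs (S ∪ J) _ (hn.mono Set.subset_union_right) (a5 J hJ hn).1
          (Set.disjoint_left.2 ?_) ?_
        · rintro y (p | p) (q | q)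
          exacts [(a4 y q).2 p.1.1, p.2 q, p.1 (a4 y q).1, p.1 (hJ q).1.1]
        · rintro y (p | ⟨-, a, p, q⟩)
          · obtain ⟨z, h, h'⟩ := (a5 J hJ hn).2 y p.1 p.2
            exact ⟨z, Or.inl h, h'⟩
          · exact ⟨a, Or.inr p, q⟩
      · omega
    have nx : x ∉ bd G (E ∪ NR G E {x}) := by
      rintro ⟨-, v, p, q⟩
      exact q (Or.inr ⟨fun c => q (Or.inl c), x, rfl, p⟩)
    have b2 : bd G (E ∪ NR G E {x}) \ Z r ⊆ ((bd G E \ Z r) \ {x}) ∪ NR G E {x} := by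
      rintro u ⟨p, q⟩
      exact (sub _ p).imp (fun h => ⟨⟨h, q⟩, fun e => nx (e ▸ p)⟩) id
    have a6 := a5 {x} (by simpa using hx) ⟨x, rfl⟩
    have b3 : ∀ a ∈ bd G (E ∪ NR G E {x}) \ Z r, ∃ y ∈ S ∪ {x}, G.Adj y a := by
      intro a ha
      rcases b2 ha with p | ⟨-, _, rfl, p⟩
      · obtain ⟨y, h, h'⟩ := a6.2 a p.1 p.2
        exact ⟨y, Or.inl h, h'⟩
      · exact ⟨_, Or.inr rfl, p⟩
    refine (ih _ (lt _ d ne) _ rfl (Or.inr ⟨r, a1.trans Set.subset_union_left, fun u hu => ?_, ?_,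
      S ∪ {x}, ?_, fun J hJ _ => ⟨a6.1.grow fun a ha => b3 a (hJ ha), fun a ha _ => b3 a ha⟩⟩)).step
      d ?_
    · rcases sub _ hu with p | ⟨-, _, rfl, p⟩
      exacts [a2 u p, (a2 _ hx.1).trans p.reachable]
    · have := Set.ncard_le_ncard b2
      have := Set.ncard_union_le ((bd G E \ Z r) \ {x}) (NR G E {x})
      have := Set.ncard_diff_singleton_add_one hx
      omega
    · rintro y (p | rfl)
      · exact ⟨Or.inl (a4 y p).1, fun c => (sub _ c).elim (a4 y p).2 fun q => q.1 (a4 y p).1⟩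
      · exact ⟨Or.inl hx.1.1, nx⟩
    · have := Set.ncard_union_le (bd G E) (NR G E {x})
      have := Set.ncard_le_ncard (s := bd G E) (t := (bd G E \ Z r) ∪ Z r) (by simp)
      have := Set.ncard_union_le (bd G E \ Z r) (Z r)
      have := h1 r
      omega
  obtain ⟨F, a, b, c, -⟩ := key _ ∅ rfl (Or.inl (by simp [bd]))
  exact ⟨F, a, fun u v e => b u v e (by simp), c⟩

lemma plain [Finite V] {s : ℕ} (hs : NoStar G s) (h : 1 ≤ s) : TD G s := by
  refine process hs (fun _ => ∅) (fun _ => s) (by simp) (fun _ => h) (by simp)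
    fun r E _ _ hJ x hx _ _ => ?_
  have := hJ {x} (by simpa using hx) ⟨x, rfl⟩
  have := Set.ncard_diff_singleton_add_one hx
  omega

lemma bi [Finite V] {W : Type} (U : Set V) (f : V → Set W) (D : ℕ) (h : ∀ u ∈ U, (f u).ncard ≤ D) :
    (⋃ u ∈ U, f u).ncard ≤ U.ncard * D := by
  lift U to Finset V using Set.toFinite _
  refine (U.set_ncard_biUnion_le _).trans ?_
  rw [Set.ncard_coe_finset]
  exact Finset.sum_le_card_nsmul _ _ _ h

lemma scale [Finite V] {s w : ℕ} (hs : NoStar G s)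
    (c4 : ∀ a b x y, a ≠ b → G.Adj a x → G.Adj a y → G.Adj b x → G.Adj b y → x = y)
    (Z : V → Set V) (D ω : V → ℕ) (h1 : ∀ r, (Z r).ncard + s ≤ w + ω r)
    (h2 : ∀ r, 4 * ω r * D r + 4 * ω r + D r + 1 ≤ s) (h3 : ∀ r, ∀ z ∈ Z r, G.Reachable r z)
    (h4 : ∀ r v, G.Reachable r v → v ∉ Z r → (G.neighborSet v).ncard ≤ D r) : TD G w := by
  classical
  refine process hs Z (fun r => s - ω r) (fun r => ?_) (fun r => ?_) h3
    fun r E a1 a2 hJ x hx hm b2 => ?_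
  · have := h1 r
    have := h2 r
    omega
  · have := h2 r
    omega
  have g2 := h2 r
  set A := bd G E \ Z r with hA
  by_contra hc
  have bD : (NR G E {x}).ncard ≤ D r := (Set.ncard_le_ncard (by
    rintro y ⟨-, _, rfl, p⟩
    exact p)).trans (h4 r x (a2 x hx.1) hx.2)
  have e1 := Set.ncard_diff_singleton_add_one hx
  obtain ⟨a, ha, ax⟩ : (A \ {x}).Nonempty := Set.nonempty_of_ncard_ne_zero (by omega)
  have b3 : (NR G E {x}).ncard ≤ ω r := by
    have p1 := hJ {x, a} (by rintro _ (rfl | rfl); exacts [hx, ha]) ⟨x, Or.inl rfl⟩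
    have p2 : NR G E {x, a} = NR G E {x} ∪ NR G E {a} := by
      ext y
      simp [NR, and_or_left]
    have p3 := Set.ncard_union_add_ncard_inter (NR G E {x}) (NR G E {a})
    have p4 : (NR G E {x} ∩ NR G E {a}).ncard ≤ 1 := (Set.ncard_le_one (Set.toFinite _)).2 (by
      rintro y ⟨⟨-, _, rfl, q1⟩, ⟨-, _, rfl, q2⟩⟩ z ⟨⟨-, _, rfl, q3⟩, ⟨-, _, rfl, q4⟩⟩
      exact c4 _ _ _ _ ax q2 q4 q1 q3)
    have p5 := hm a ha
    have p6 := Set.ncard_diff_singleton_add_one (show a ∈ A \ {x} from ⟨ha, ax⟩)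
    rw [Set.diff_diff] at p6
    rw [p2] at p1
    have : ({x} ∪ {a} : Set V) = {x, a} := rfl
    rw [this] at p6
    omega
  obtain ⟨⟨J, U⟩, ⟨q1, q2, q3⟩, hmax⟩ := Set.exists_max_image
    {p : Set V × Set V | p.1 ⊆ A ∧ p.2 ⊆ NR G E p.1 ∧ p.2.ncard = 2 * p.1.ncard}
    (fun p => p.1.ncard) (Set.toFinite _) ⟨(∅, ∅), by simp⟩
  simp only at q1 q2 q3 hmax
  have q4 : ∀ a ∈ A \ J, ∃ u ∈ U, G.Adj u a := by
    intro a ha
    by_contra n
    obtain ⟨y, z, ⟨hy, _, e1, hy'⟩, ⟨hz, _, e2, hz'⟩, yz⟩ :=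
      (Set.one_lt_ncard_iff (Set.toFinite _)).1 (b2.trans (hm a ha.1))
    rw [e1] at hy'
    rw [e2] at hz'
    have yU : y ∉ U := fun c => n ⟨y, c, hy'.symm⟩
    have zU : z ∉ U := fun c => n ⟨z, c, hz'.symm⟩
    have := hmax (insert a J, insert y (insert z U)) ⟨Set.insert_subset ha.1 q1, ?_, ?_⟩
    · rw [Set.ncard_insert_of_notMem ha.2] at this
      omega
    · rintro u (rfl | rfl | hu)
      · exact ⟨hy, a, Or.inl rfl, hy'⟩
      · exact ⟨hz, a, Or.inl rfl, hz'⟩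
      · obtain ⟨p, c, p', q⟩ := q2 hu
        exact ⟨p, c, Or.inr p', q⟩
    · simp only
      rw [Set.ncard_insert_of_notMem (by simp [yU, yz]), Set.ncard_insert_of_notMem zU,
        Set.ncard_insert_of_notMem ha.2]
      omega
  have q5 : (A \ J).ncard ≤ U.ncard * D r := by
    have : A \ J ⊆ ⋃ u ∈ U, G.neighborSet u := fun a ha => by simpa using q4 a ha
    refine (Set.ncard_le_ncard this).trans ?_
    refine bi _ _ _ fun u hu => ?_
    obtain ⟨p, c, p', q⟩ := q2 hu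
    exact h4 r u ((a2 c (q1 p').1).trans q.reachable) fun z => p (a1 z)
  have q6 := Set.ncard_diff_add_ncard_of_subset q1
  have q7 : J.ncard ≤ 2 * ω r := by
    rcases J.eq_empty_or_nonempty with rfl | ne
    · simp
    · have := hJ J q1 ne
      have := Set.ncard_le_ncard q2
      omega
  have : U.ncard * D r ≤ 4 * ω r * D r := Nat.mul_le_mul_right _ (by omega)
  omega

end Pool.Agent.H.MP_420e77_co
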