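import Pool.Agent.H.MP_420e77_co.B

namespace Pool.Agent.H.MP_420e77_co

open SimpleGraph Finset

variable {V : Type} {G : SimpleGraph V}

/-- no 4-cycle -/
def C4 (G : SimpleGraph V) : Prop :=
  ∀ a b x y, a ≠ b → G.Adj a x → G.Adj a y → G.Adj b x → G.Adj b y → x = y

lemma hi [Finite V] {s : ℕ} (hs : NoStar G s) (c4 : C4 G) (r : V) (Y : Finset V)
    (hY : ∀ v ∈ Y, G.Reachable r v) :
    ∑ v ∈ Y, (G.neighborSet v).ncard ≤ s + 4 * Y.card ^ 2 := by
  classical
  have : ∀ v, ∃ P : Set V, v ∈ Y → r ∈ P ∧ v ∈ P ∧ (∀ z ∈ P, R G P r z) ∧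
      ∀ u, (G.neighborSet u ∩ P).ncard ≤ 3 := by
    intro v
    by_cases hv : v ∈ Y
    swap
    · exact ⟨∅, fun h => absurd h hv⟩
    obtain ⟨p, hp⟩ := (hY v hv).exists_walk_length_eq_dist
    refine ⟨{z | z ∈ p.support}, fun _ => ⟨p.start_mem_support, p.end_mem_support, fun z hz =>
      walk_R (p.takeUntil z hz) fun y hy => p.support_takeUntil_subset_support hz hy, fun u => ?_⟩⟩
    have : G.neighborSet u ∩ {z | z ∈ p.support} ⊆ {p.getVert (G.dist r u),
        p.getVert (G.dist r u + 1), p.getVert (G.dist r u - 1)} := by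
      rintro z ⟨h1, h2⟩
      have a := p.getVert_length_takeUntil h2
      rw [length_eq_dist_of_subwalk hp (p.isSubwalk_takeUntil h2)] at a
      rcases Adj.diff_dist_adj (u := r) h1 with e | e | e <;> rw [e] at a <;> simp [a]
    refine (Set.ncard_le_ncard this).trans ((Set.ncard_insert_le _ _).trans ?_)
    exact Nat.succ_le_succ ((Set.ncard_insert_le _ _).trans (by simp))
  choose P hP using this
  rcases Y.eq_empty_or_nonempty with rfl | ⟨v0, h0⟩
  · simp
  set S : Set V := ⋃ v ∈ (Y : Set V), P v with hS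
  have sub : ∀ v ∈ Y, P v ⊆ S := fun v hv => Set.subset_biUnion_of_mem (u := P) hv
  set L : Set V := {l | l ∉ S ∧ ∃ v ∈ Y, G.Adj v l}
  have hL : L.ncard < s := by
    refine hs S L ⟨r, sub v0 h0 (hP v0 h0).1⟩ (pre_root r fun z hz => ?_)
      (Set.disjoint_left.2 fun l hl => hl.1) ?_
    · obtain ⟨v, hv, hz⟩ := Set.mem_iUnion₂.1 hz
      exact ((hP v hv).2.2.1 z hz).mono le_rfl (sub v hv)
    · rintro l ⟨-, v, hv, e⟩
      exact ⟨v, sub v hv (hP v hv).2.1, e⟩
  let Q : V → Set V := fun v => {l | l ∈ L ∧ G.Adj v l ∧ ∀ u ∈ Y, G.Adj u l → u = v}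
  have a : ∀ v ∈ Y, (G.neighborSet v).ncard ≤ (Q v).ncard + 4 * Y.card := by
    intro v hv
    have b1 : G.neighborSet v ⊆ (Q v ∪ ⋃ u ∈ (Y : Set V), G.neighborSet v ∩ P u) ∪
        ⋃ u ∈ (Y : Set V), {l | u ≠ v ∧ G.Adj u l ∧ G.Adj v l} := by
      intro l hl
      by_cases c : l ∈ S
      · obtain ⟨u, hu, h⟩ := Set.mem_iUnion₂.1 c
        exact Or.inl (Or.inr (Set.mem_biUnion hu ⟨hl, h⟩))
      by_cases c' : ∀ u ∈ Y, G.Adj u l → u = v
      · exact Or.inl (Or.inl ⟨⟨c, v, hv, hl⟩, hl, c'⟩)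
      · push Not at c'
        obtain ⟨u, hu, h, h'⟩ := c'
        exact Or.inr (Set.mem_biUnion hu ⟨h', h, hl⟩)
    have b2 := bi (Y : Set V) (fun u => G.neighborSet v ∩ P u) 3 fun u hu => (hP u hu).2.2.2 v
    have b3 := bi (Y : Set V) (fun u => {l | u ≠ v ∧ G.Adj u l ∧ G.Adj v l}) 1 fun u _ =>
      (Set.ncard_le_one (Set.toFinite _)).2 fun x hx y hy =>
        c4 _ _ _ _ hx.1 hx.2.1 hy.2.1 hx.2.2 hy.2.2
    rw [Set.ncard_coe_finset] at b2 b3
    have b4 := (Set.ncard_le_ncard b1).trans ((Set.ncard_union_le _ _).trans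
      (Nat.add_le_add_right (Set.ncard_union_le _ _) _))
    omega
  have b : ∑ v ∈ Y, (Q v).ncard ≤ L.ncard := by
    rw [← finsum_mem_coe_finset, ← (Set.toFinite _).ncard_biUnion (fun _ _ => Set.toFinite _)
      fun u hu v hv h => Set.disjoint_left.2 fun l p q => h (q.2.2 u hu p.2.1)]
    exact Set.ncard_le_ncard (Set.iUnion₂_subset fun v _ l hl => hl.1)
  have c := sum_le_sum a
  rw [sum_add_distrib, sum_const, smul_eq_mul] at c
  nlinarith

lemma geo (c d n : ℕ) : ∑ j ∈ range n, (if c * 2 ^ j ≤ d then c * 2 ^ j else 0) ≤ c * 2 ^ n ∧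
    ∑ j ∈ range n, (if c * 2 ^ j ≤ d then c * 2 ^ j else 0) ≤ 2 * d := by
  induction n with
  | zero => simp
  | succ n ih =>
    rw [sum_range_succ, pow_succ, ← mul_assoc]
    split_ifs <;> omega

lemma gain [Finite V] {g s w : ℕ} (hg : 1 ≤ g) (e : s = (2 ^ 70 * g) ^ 2) (hw : s ≤ w + g)
    (hs : NoStar G s) (c4 : C4 G) : TD G w := by
  classical
  have := Fintype.ofFinite V
  obtain ⟨q, hq⟩ : ∃ q, q = 2 ^ 70 * g := ⟨_, rfl⟩
  rw [← hq] at e
  let Z : V → ℕ → Finset V := fun r j =>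
    univ.filter fun v => G.Reachable r v ∧ 8 * q * 2 ^ j ≤ (G.neighborSet v).ncard
  have : ∀ r, ∃ j < 64, 16 * ((Z r j).card * (8 * q * 2 ^ j)) ≤ s := by
    intro r
    have a1 : (Z r 0).card ≤ 2 ^ 68 * g := by
      by_contra c
      obtain ⟨Y, h1, h2⟩ := exists_subset_card_eq (not_le.1 c).le
      have b := hi hs c4 r Y fun v hv => (mem_filter.1 (h1 hv)).2.1
      have b' := card_nsmul_le_sum Y (fun v => (G.neighborSet v).ncard) (8 * q)
        fun v hv => by simpa using (mem_filter.1 (h1 hv)).2.2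
      rw [h2] at b b'
      rw [smul_eq_mul] at b'
      subst e hq
      nlinarith
    have a2 := hi hs c4 r (Z r 0) fun v hv => (mem_filter.1 hv).2.1
    have a3 : ∑ j ∈ range 64, (Z r j).card * (8 * q * 2 ^ j) ≤
        2 * ∑ v ∈ Z r 0, (G.neighborSet v).ncard := by
      rw [mul_sum]
      refine le_trans (le_of_eq ?_) (sum_le_sum fun v _ => (geo (8 * q) _ 64).2)
      rw [sum_comm]
      refine sum_congr rfl fun j _ => ?_
      rw [← sum_filter, sum_const, smul_eq_mul]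
      congr 2
      ext v
      simp only [Z, mem_filter, mem_univ, true_and, pow_zero, mul_one]
      exact ⟨fun h => ⟨⟨h.1, le_trans (Nat.le_mul_of_pos_right _ (by positivity)) h.2⟩, h.2⟩,
        fun h => ⟨h.1.1, h.2⟩⟩
    by_contra c
    push Not at c
    have a4 := card_nsmul_le_sum (range 64) (fun j => 16 * ((Z r j).card * (8 * q * 2 ^ j))) (s + 1)
      fun j hj => c j (mem_range.1 hj)
    rw [← mul_sum, card_range, smul_eq_mul] at a4
    have a5 : 4 * (Z r 0).card ^ 2 ≤ s := by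
      have := Nat.pow_le_pow_left a1 2
      subst e hq
      nlinarith
    omega
  choose j h1 h2 using this
  have k : ∀ r, 8 * (g * 2 ^ (64 - j r) * (8 * q * 2 ^ j r)) = s := fun r => by
    have : 2 ^ (64 - j r) * 2 ^ j r = 2 ^ 64 := by rw [← pow_add, Nat.sub_add_cancel (h1 r).le]
    calc _ = 64 * g * q * (2 ^ (64 - j r) * 2 ^ j r) := by ring
      _ = _ := by rw [this, e, hq]; ring
  refine scale hs c4 (fun r => Z r (j r)) (fun r => 8 * q * 2 ^ j r) (fun r => g * 2 ^ (64 - j r))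
    (fun r => ?_) (fun r => ?_) (fun r z hz => (mem_filter.1 hz).2.1) fun r v a b => ?_
  · have a : 2 * (Z r (j r)).card ≤ g * 2 ^ (64 - j r) := by
      refine Nat.le_of_mul_le_mul_right (c := 8 * (8 * q * 2 ^ j r)) ?_ (by subst hq; positivity)
      have := h2 r
      rw [← k r] at this
      linarith
    have b : g * 2 ^ 1 ≤ g * 2 ^ (64 - j r) :=
      Nat.mul_le_mul_left _ (Nat.pow_le_pow_right (by norm_num) (by have := h1 r; omega))
    rw [Set.ncard_coe_finset]
    omega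
  · have a : g * 2 ^ (64 - j r) ≤ g * 2 ^ 64 :=
      Nat.mul_le_mul_left _ (Nat.pow_le_pow_right (by norm_num) (by omega))
    have b : 8 * q * 2 ^ j r ≤ 8 * q * 2 ^ 63 :=
      Nat.mul_le_mul_left _ (Nat.pow_le_pow_right (by norm_num) (by have := h1 r; omega))
    have c : 2 ^ 70 * q ≤ s := by
      rw [e, sq]
      exact Nat.mul_le_mul_right _ (by omega)
    have := k r
    rw [mul_assoc 4]
    omega
  · by_contra c
    exact b (mem_filter.2 ⟨mem_univ _, a, (not_le.1 c).le⟩)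

end Pool.Agent.H.MP_420e77_co
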