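import Pool.Agent.H.MP_420e77_co.C

namespace Pool.Agent.H.MP_420e77_co

open SimpleGraph Pool.Agent.H.MP_31fefb_co

variable {V W W' : Type} {G G' : SimpleGraph V} {H : SimpleGraph W}

lemma supp_model (hH : ∀ x, x ∈ H.support) {B : W → Set V} (h : Model H G B) (x : W) :
    B x ⊆ G.support := by
  intro v hv
  obtain ⟨y, hy⟩ := hH x
  obtain ⟨a, ha, b, -, e⟩ := h.2.2 x y hy
  rcases Relation.ReflTransGen.cases_head ((conn_iff.1 (h.1 x)).2 v hv a ha) with rfl | ⟨c, p, -⟩
  · exact ⟨b, e⟩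
  · exact ⟨c, p.1⟩

/-- branch sets on the support -/
def Lift (G' G : SimpleGraph V) (c : V → Set V) : Prop :=
  (∀ y ∈ G'.support, (c y).Nonempty ∧ Pre G (c y)) ∧
    (∀ y ∈ G'.support, ∀ z ∈ G'.support, y ≠ z → Disjoint (c y) (c z)) ∧
      ∀ y z, G'.Adj y z → ∃ a ∈ c y, ∃ b ∈ c z, G.Adj a b

lemma Lift.model {c : V → Set V} (l : Lift G' G c) (hH : ∀ x, x ∈ H.support) {B : W → Set V}
    (h : Model H G' B) : Model H G fun x => ⋃ y ∈ B x, c y := by
  have sp := supp_model hH h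
  have sub : ∀ x, ∀ y ∈ B x, c y ⊆ ⋃ y ∈ B x, c y := fun x y hy => Set.subset_biUnion_of_mem hy
  refine ⟨fun x => conn_iff.2 ?_, fun x y e => ?_, fun x y e => ?_⟩
  · obtain ⟨⟨r, hr⟩, h2⟩ := conn_iff.1 (h.1 x)
    obtain ⟨a, ha⟩ := (l.1 r (sp x hr)).1
    refine ⟨⟨a, sub x r hr ha⟩, pre_root a fun b hb => ?_⟩
    obtain ⟨y, hy, hb⟩ := Set.mem_iUnion₂.1 hb
    have := h2 r hr y hy
    induction this generalizing b with
    | refl => exact ((l.1 r (sp x hr)).2 a ha b hb).mono le_rfl (sub x r hr)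
    | @tail y z _ p ih =>
      obtain ⟨u, hu, v, hv, e⟩ := l.2.2 y z p.1
      exact ((ih u (sub x y p.2.1 hu) p.2.1 hu).tr (.adj e (sub x y p.2.1 hu) (sub x z hy hv))).tr
        (((l.1 z (sp x hy)).2 v hv b hb).mono le_rfl (sub x z hy))
  · refine Set.disjoint_left.2 fun v h1 h2 => ?_
    obtain ⟨a, ha, h1⟩ := Set.mem_iUnion₂.1 h1
    obtain ⟨b, hb, h2⟩ := Set.mem_iUnion₂.1 h2
    exact Set.disjoint_left.1 (l.2.1 a (sp x ha) b (sp y hb)
      fun q => Set.disjoint_left.1 (h.2.1 x y e) ha (q ▸ hb)) h1 h2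
  · obtain ⟨a, ha, b, hb, q⟩ := h.2.2 x y e
    obtain ⟨u, hu, v, hv, q⟩ := l.2.2 a b q
    exact ⟨u, sub x a ha hu, v, sub y b hb hv, q⟩

lemma model_mono (l : G' ≤ G) {B : W → Set V} (h : Model H G' B) : Model H G B :=
  ⟨fun x => conn_iff.2 ⟨(conn_iff.1 (h.1 x)).1, fun a ha b hb =>
    ((conn_iff.1 (h.1 x)).2 a ha b hb).mono l le_rfl⟩, h.2.1, fun x y e =>
      let ⟨a, ha, b, hb, q⟩ := h.2.2 x y e; ⟨a, ha, b, hb, l q⟩⟩

lemma minor_comap {H' : SimpleGraph W'} (φ : W' → W) (h1 : Function.Injective φ)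
    (h2 : ∀ a b, H'.Adj a b → H.Adj (φ a) (φ b)) (h : IsMinor H G) : IsMinor H' G := by
  obtain ⟨B, a, b, c⟩ := h
  exact ⟨B ∘ φ, fun _ => a _, fun x y e => b _ _ (h1.ne e), fun x y e => c _ _ (h2 x y e)⟩

/-- a cycle inside `C` -/
def Cyc (G : SimpleGraph V) (C : Set V) : Prop :=
  ∃ B : Fin 3 → Set V, Model ⊤ G B ∧ ∀ i, B i ⊆ C

lemma top_supp (x : Fin 3) : x ∈ (⊤ : SimpleGraph (Fin 3)).support :=
  ⟨x + 1, by revert x; decide⟩

lemma cyc_of_walk {a b y : V} (p : G.Walk a b) (ne : a ≠ b) (hy : y ∉ p.support) (ha : G.Adj y a)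
    (hb : G.Adj y b) : Cyc G (insert y {z | z ∈ p.support}) := by
  classical
  have h1 := p.bypass_isPath
  have h2 := p.support_bypass_subset_support
  generalize p.bypass = q at h1 h2
  cases q with
  | nil => exact absurd rfl ne
  | cons e q =>
    rw [Walk.cons_isPath_iff] at h1
    have h3 : y ∉ q.support := fun c => hy (h2 (by simp [c]))
    have h4 := h1.2
    have h5 := ha.ne
    have h6 := ha.ne'
    refine ⟨![{y}, {a}, {z | z ∈ q.support}], ⟨fun i => ?_, fun i j ij => ?_, fun i j ij => ?_⟩,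
      fun i => ?_⟩
    · fin_cases i
      · exact conn_iff.2 ⟨⟨_, rfl⟩, pre_single _⟩
      · exact conn_iff.2 ⟨⟨_, rfl⟩, pre_single _⟩
      · exact q.connected_induce_support
    · fin_cases i <;> fin_cases j <;> first | exact absurd rfl ij | simp [*]
    · fin_cases i <;> fin_cases j <;> first | exact absurd rfl ij.ne | skip
      · exact ⟨y, rfl, a, rfl, ha⟩
      · exact ⟨y, rfl, b, q.end_mem_support, hb⟩
      · exact ⟨a, rfl, y, rfl, ha.symm⟩
      · exact ⟨a, rfl, _, q.start_mem_support, e⟩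
      · exact ⟨b, q.end_mem_support, y, rfl, hb.symm⟩
      · exact ⟨_, q.start_mem_support, a, rfl, e.symm⟩
    · fin_cases i
      · simp
      · simp
      · exact fun z hz => Or.inr (h2 (by simp [show z ∈ q.support from hz]))

/-- oriented edges of the model graph -/
def EE (k s : ℕ) (a b : (Fin k × Fin 3) ⊕ Option (Fin s)) : Prop :=
  (∃ i c d, a = .inl (i, c) ∧ b = .inl (i, d) ∧ c < d) ∨ (a = .inr none ∧ ∃ l, b = .inr (some l))

/-- triangles and a star -/
def HH (k s : ℕ) : SimpleGraph ((Fin k × Fin 3) ⊕ Option (Fin s)) := fromRel (EE k s)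

lemma HH_l {k s : ℕ} (i : Fin k) {c d : Fin 3} (h : c ≠ d) :
    (HH k s).Adj (.inl (i, c)) (.inl (i, d)) :=
  ⟨by simpa using h, (lt_or_gt_of_ne h).imp (fun e => Or.inl ⟨i, c, d, rfl, rfl, e⟩)
    fun e => Or.inl ⟨i, d, c, rfl, rfl, e⟩⟩

lemma HH_r {k s : ℕ} (l : Fin s) : (HH k s).Adj (.inr none) (.inr (some l)) :=
  ⟨by simp, Or.inl (Or.inr ⟨rfl, l, rfl⟩)⟩

lemma HH_supp {k s : ℕ} (hs : 1 ≤ s) (x) : x ∈ (HH k s).support := by
  rcases x with ⟨i, c⟩ | _ | l
  · exact ⟨_, HH_l i (d := c + 1) (by revert c; decide)⟩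
  · exact ⟨_, HH_r ⟨0, hs⟩⟩
  · exact ⟨_, (HH_r l).symm⟩

lemma extend {k s : ℕ} (hs : 1 ≤ s) {C : Set V} (h1 : Cyc G C) (h2 : IsMinor (HH k s) (del G C)) :
    IsMinor (HH (k + 1) s) G := by
  obtain ⟨A, a1, a2⟩ := h1
  obtain ⟨B, b1⟩ := h2
  have b2 : ∀ i x, Disjoint (A i) (B x) := fun i x => Set.disjoint_left.2 fun v p q => by
    obtain ⟨w, e⟩ := supp_model (HH_supp hs) b1 x q
    exact e.2.1 (a2 i p)
  replace b1 := model_mono (del_le C) b1
  have : IsMinor ((⊤ : SimpleGraph (Fin 3)).sum (HH k s)) G := by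
    refine ⟨Sum.elim A B, ?_, ?_, ?_⟩
    · rintro (x | x)
      exacts [a1.1 x, b1.1 x]
    · rintro (x | x) (y | y) e
      exacts [a1.2.1 x y (by simpa using e), b2 x y, (b2 y x).symm, b1.2.1 x y (by simpa using e)]
    · rintro (x | x) (y | y) e
      exacts [a1.2.2 x y e, by simp at e, by simp at e, b1.2.2 x y e]
  refine minor_comap (Sum.elim (fun x => Fin.cases (.inl x.2) (fun i => .inr (.inl (i, x.2))) x.1)
    fun o => .inr (.inr o)) ?_ ?_ this
  · rintro (⟨i, c⟩ | x) (⟨j, d⟩ | y) e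
    · induction i using Fin.cases <;> induction j using Fin.cases <;> simp_all
    · induction i using Fin.cases <;> simp_all
    · induction j using Fin.cases <;> simp_all
    · simp_all
  · have : ∀ a b, EE (k + 1) s a b → ((⊤ : SimpleGraph (Fin 3)).sum (HH k s)).Adj
        (Sum.elim (fun x => Fin.cases (.inl x.2) (fun i => .inr (.inl (i, x.2))) x.1)
          (fun o => .inr (.inr o)) a)
        (Sum.elim (fun x => Fin.cases (.inl x.2) (fun i => .inr (.inl (i, x.2))) x.1)
          (fun o => .inr (.inr o)) b) := by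
      rintro _ _ (⟨i, c, d, rfl, rfl, e⟩ | ⟨rfl, l, rfl⟩)
      · induction i using Fin.cases
        · exact e.ne
        · exact HH_l _ e.ne
      · exact HH_r l
    exact fun a b h => h.2.elim (this a b) fun q => (this b a q).symm

lemma nostar [Finite V] {s : ℕ} (h : ¬ IsMinor (HH 0 s) G) : NoStar G s := by
  intro S L h1 h2 h3 h4
  by_contra c
  obtain ⟨f⟩ : Nonempty (Fin s ↪ L) := by
    have := Fintype.ofFinite L
    refine Function.Embedding.nonempty_of_card_le ?_
    rw [Fintype.card_fin, ← Nat.card_eq_fintype_card, Nat.card_coe_set_eq]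
    omega
  refine h ⟨Sum.elim (fun x => x.1.elim0) fun o => o.elim S fun l => {(f l).1}, ?_, ?_, ?_⟩
  · rintro (x | _ | l)
    exacts [x.1.elim0, conn_iff.2 ⟨h1, h2⟩, conn_iff.2 ⟨⟨_, rfl⟩, pre_single _⟩]
  · rintro (⟨⟨_, ⟨⟩⟩, -⟩ | _ | l) (⟨⟨_, ⟨⟩⟩, -⟩ | _ | m) e
    · exact absurd rfl e
    · exact Set.disjoint_singleton_right.2 (Set.disjoint_left.1 h3 (f m).2)
    · exact Set.disjoint_singleton_left.2 (Set.disjoint_left.1 h3 (f l).2)
    · exact Set.disjoint_singleton.2 fun q => e (by rw [f.injective (Subtype.ext q)])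
  · rintro x y ⟨-, (⟨i, -⟩ | ⟨rfl, l, rfl⟩) | (⟨i, -⟩ | ⟨rfl, l, rfl⟩)⟩
    · exact i.elim0
    · obtain ⟨y, p, q⟩ := h4 _ (f l).2
      exact ⟨y, p, _, rfl, q⟩
    · exact i.elim0
    · obtain ⟨y, p, q⟩ := h4 _ (f l).2
      exact ⟨_, rfl, y, p, q.symm⟩

lemma greedy [Finite V] {s : ℕ} (hs : 1 ≤ s) (k : ℕ) : ∀ (G : SimpleGraph V) (X : Set V),
    X.Nonempty → (∀ x ∈ X, 3 * k + s ≤ (G.neighborSet x ∩ X).ncard) → IsMinor (HH k s) G := by
  classical
  induction k with
  | zero =>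
    rintro G X ⟨x, hx⟩ h
    by_contra c
    have := nostar c {x} (G.neighborSet x ∩ X) ⟨x, rfl⟩ (pre_single x)
      (Set.disjoint_singleton_right.2 fun q => q.1.ne rfl) fun l hl => ⟨x, rfl, hl.1⟩
    have := h x hx
    omega
  | succ k ih =>
    intro G X hne h
    have := Fintype.ofFinite V
    have ex : ∃ n, ∃ y a b, ∃ p : G.Walk a b, a ≠ b ∧ y ∉ p.support ∧ G.Adj y a ∧ G.Adj y b ∧
        y ∈ X ∧ (∀ z ∈ p.support, z ∈ X) ∧ p.length = n := by
      obtain ⟨n, ⟨x, y, p, hp, hs, hl⟩, hn⟩ : ∃ n, (∃ x y, ∃ p : G.Walk x y, p.IsPath ∧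
          (∀ z ∈ p.support, z ∈ X) ∧ p.length = n) ∧ ¬ (∃ x y, ∃ p : G.Walk x y, p.IsPath ∧
          (∀ z ∈ p.support, z ∈ X) ∧ p.length = n + 1) := by
        by_contra hc
        have all : ∀ n, ∃ x y, ∃ p : G.Walk x y, p.IsPath ∧
            (∀ z ∈ p.support, z ∈ X) ∧ p.length = n := by
          intro n
          induction n with
          | zero =>
            obtain ⟨x, hx⟩ := hne
            exact ⟨x, x, .nil, by simp, by simpa using hx, rfl⟩
          | succ n ih =>
            by_contra h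
            exact hc ⟨n, ih, h⟩
        obtain ⟨x, y, p, hp, -, hl⟩ := all (Fintype.card V)
        have := hp.length_lt
        omega
      have key : ∀ w ∈ G.neighborSet x ∩ X, w ∈ p.support := by
        intro w hw
        by_contra hm
        exact hn ⟨w, y, .cons hw.1.symm p, by simp [hp, hm], by simpa [hw.2] using hs, by simp [hl]⟩
      have hx := hs x p.start_mem_support
      cases p with
      | nil =>
        obtain ⟨w, hw⟩ := Set.nonempty_of_ncard_ne_zero (s := G.neighborSet x ∩ X)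
          (by have := h x hx; omega)
        exact absurd (by simpa using key w hw) hw.1.ne'
      | @cons _ a _ e q =>
        obtain ⟨b, hb, ba⟩ := Set.exists_ne_of_one_lt_ncard (s := G.neighborSet x ∩ X)
          (by have := h x hx; omega) a
        have hq : b ∈ q.support := by simpa [hb.1.ne'] using key b hb
        have sb := q.support_takeUntil_subset_support hq
        exact ⟨_, x, a, b, q.takeUntil b hq, ba.symm,
          fun c => ((Walk.cons_isPath_iff _ _).1 hp).2 (sb c), e, hb.1, hx,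
          fun z hz => hs z (by simp [sb hz]), rfl⟩
    obtain ⟨y, a, b, p, h1, h2, h3, h4, h5, h6, h7⟩ := Nat.find_spec ex
    have two : ∀ z ∈ X, z ∉ p.support → (G.neighborSet z ∩ {v | v ∈ p.support}).ncard ≤ 2 := by
      intro z hz hz'
      by_cases c : G.neighborSet z ∩ {v | v ∈ p.support} ⊆ {a, b}
      · exact (Set.ncard_le_ncard c).trans ((Set.ncard_insert_le _ _).trans (by simp))
      obtain ⟨u, ⟨u1, u2⟩, u3⟩ := Set.not_subset.1 c
      simp only [Set.mem_insert_iff, Set.mem_singleton_iff, not_or] at u3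
      refine (Set.ncard_le_ncard (t := {u}) ?_).trans (by simp)
      rintro v ⟨v1, v2⟩
      by_contra ne
      have e := congrArg Walk.length (p.take_spec u2)
      rw [Walk.length_append] at e
      have l1 : (p.takeUntil u u2).length ≠ 0 := fun c => u3.1 (Walk.eq_of_length_eq_zero c).symm
      have l2 : (p.dropUntil u u2).length ≠ 0 := fun c => u3.2 (Walk.eq_of_length_eq_zero c)
      have : v ∈ ((p.takeUntil u u2).append (p.dropUntil u u2)).support := by
        rwa [p.take_spec u2]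
      rcases (Walk.mem_support_append_iff _ _).1 this with m | m
      · have sb : ((p.takeUntil u u2).dropUntil v m).support ⊆ p.support :=
          fun _ h => p.support_takeUntil_subset_support u2 (Walk.support_dropUntil_subset_support _ m h)
        have := Walk.length_dropUntil_le_length _ m
        exact Nat.find_min ex (m := ((p.takeUntil u u2).dropUntil v m).length) (by omega)
          ⟨z, v, u, _, ne, fun c => hz' (sb c), v1, u1, hz, fun x hx => h6 x (sb hx), rfl⟩
      · have sb : ((p.dropUntil u u2).takeUntil v m).support ⊆ p.support :=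
          fun _ h => p.support_dropUntil_subset_support u2 (Walk.support_takeUntil_subset_support _ m h)
        have := Walk.length_takeUntil_le_length _ m
        exact Nat.find_min ex (m := ((p.dropUntil u u2).takeUntil v m).length) (by omega)
          ⟨z, u, v, _, Ne.symm ne, fun c => hz' (sb c), u1, v1, hz, fun x hx => h6 x (sb hx), rfl⟩
    have cnt : ∀ z ∈ X, z ∉ p.support →
        3 * k + s ≤ ((G.neighborSet z ∩ X) \ insert y {v | v ∈ p.support}).ncard := by
      intro z hz hz'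
      have a1 : G.neighborSet z ∩ X ⊆ ((G.neighborSet z ∩ X) \ insert y {v | v ∈ p.support}) ∪
          insert y (G.neighborSet z ∩ {v | v ∈ p.support}) := by
        intro v hv
        by_cases c : v ∈ insert y {v | v ∈ p.support}
        · exact Or.inr (c.imp id fun c => ⟨hv.1, c⟩)
        · exact Or.inl ⟨hv, c⟩
      have a2 := (Set.ncard_le_ncard a1).trans ((Set.ncard_union_le _ _).trans
        (Nat.add_le_add_left (Set.ncard_insert_le _ _) _))
      have := two z hz hz'
      have := h z hz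
      omega
    refine extend hs (cyc_of_walk p h1 h2 h3 h4) (ih _ (X \ insert y {v | v ∈ p.support}) ?_
      fun x hx => (cnt x hx.1 fun c => hx.2 (Or.inr c)).trans (Set.ncard_le_ncard
        fun v hv => ⟨⟨hv.1.1, hx.2, hv.2⟩, hv.1.2, hv.2⟩))
    obtain ⟨v, hv⟩ := Set.nonempty_of_ncard_ne_zero
      (s := (G.neighborSet y ∩ X) \ insert y {v | v ∈ p.support}) (by have := cnt y h5 h2; omega)
    exact ⟨v, hv.1.2, hv.2⟩

end Pool.Agent.H.MP_420e77_co
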