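import Pool.Agent.H.MP_420e77_co.D

namespace Pool.Agent.H.MP_420e77_co

open SimpleGraph Pool.Agent.H.MP_31fefb_co

variable {V : Type} {G G' : SimpleGraph V}

/-- short walks -/
def Wn (G : SimpleGraph V) (n : ℕ) (a b : V) : Prop := ∃ p : G.Walk a b, p.length ≤ n

lemma Wn.rfl {n : ℕ} {a : V} : Wn G n a a := ⟨.nil, by simp⟩

lemma Wn.adj {a b : V} (h : G.Adj a b) : Wn G 1 a b := ⟨h.toWalk, by simp⟩

lemma Wn.symm {n : ℕ} {a b : V} (h : Wn G n a b) : Wn G n b a :=
  let ⟨p, h⟩ := h; ⟨p.reverse, by simpa using h⟩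

lemma Wn.tr {n m : ℕ} {a b c : V} (h : Wn G n a b) (h' : Wn G m b c) : Wn G (n + m) a c :=
  let ⟨p, h⟩ := h; let ⟨q, h'⟩ := h'; ⟨p.append q, by simpa using Nat.add_le_add h h'⟩

lemma Wn.mono {n m : ℕ} {a b : V} (h : Wn G n a b) (l : G ≤ G') (l' : n ≤ m) : Wn G' m a b :=
  let ⟨p, h⟩ := h; ⟨p.mapLe l, by simpa using h.trans l'⟩

lemma voronoi [Finite V] (j : ℕ) (ne : G.support.Nonempty)
    (deg : ∀ v ∈ G.support, 3 ≤ (G.neighborSet v).ncard)
    (ns : ∀ u v, G.Adj u v → ¬ Wn (G.deleteEdges {s(u, v)}) (8 * j + 1) u v) :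
    ∃ (Q : SimpleGraph V) (X : Set V) (c : V → Set V), X.Nonempty ∧ Lift Q G c ∧
      ∀ x ∈ X, 2 ^ j ≤ (Q.neighborSet x ∩ X).ncard := by
  classical
  have := Fintype.ofFinite V
  obtain ⟨X, ⟨x1, x2⟩, hmax⟩ := Set.exists_max_image
    {X : Set V | X ⊆ G.support ∧ ∀ a ∈ X, ∀ b ∈ X, Wn G (2 * j) a b → a = b} Set.ncard
    (Set.toFinite _) ⟨∅, by simp⟩
  have x3 : ∀ v ∈ G.support, ∃ x ∈ X, Wn G (2 * j) v x := by
    intro v hv
    by_contra c
    have nv : v ∉ X := fun h => c ⟨v, h, .rfl⟩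
    have := hmax (insert v X) ⟨Set.insert_subset hv x1, ?_⟩
    · rw [Set.ncard_insert_of_notMem nv] at this
      omega
    · rintro a (rfl | ha) b (rfl | hb) h
      exacts [rfl, absurd ⟨b, hb, h⟩ c, absurd ⟨a, ha, h.symm⟩ c, x2 a ha b hb h]
  let d : V → ℕ := fun v => sInf {n | ∃ x ∈ X, Wn G n v x}
  have d1 : ∀ v ∈ G.support, ∃ x ∈ X, Wn G (d v) v x := fun v hv =>
    Nat.sInf_mem (s := {n | ∃ x ∈ X, Wn G n v x}) ⟨_, x3 v hv⟩
  have d2 : ∀ v n, ∀ x ∈ X, Wn G n v x → d v ≤ n := fun v n x hx h => Nat.sInf_le ⟨x, hx, h⟩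
  have d3 : ∀ v ∈ G.support, d v ≤ 2 * j := fun v hv =>
    let ⟨x, hx, h⟩ := x3 v hv; d2 v _ x hx h
  have hp : ∀ v, ∃ y, (v ∈ G.support → d v ≠ 0 → G.Adj v y ∧ d y + 1 = d v) ∧
      (d v = 0 → y = v) := by
    intro v
    by_cases c : v ∈ G.support ∧ d v ≠ 0
    · obtain ⟨x, hx, p, hp⟩ := d1 v c.1
      cases p with
      | nil => exact absurd (Nat.le_zero.1 (d2 _ 0 _ hx .rfl)) c.2
      | @cons _ y _ e p =>
        refine ⟨y, fun _ _ => ⟨e, ?_⟩, fun h => absurd h c.2⟩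
        have a := d2 y _ x hx ⟨p, le_rfl⟩
        obtain ⟨z, hz, h⟩ := d1 y ⟨_, e.symm⟩
        have b := d2 v _ z hz ((Wn.adj e).tr h)
        rw [Walk.length_cons] at hp
        omega
    · exact ⟨v, fun a b => absurd ⟨a, b⟩ c, fun _ => rfl⟩
  choose par p1 p2 using hp
  have it : ∀ n, ∀ v ∈ G.support, par^[n] v ∈ G.support ∧ d (par^[n] v) = d v - n := by
    intro n v hv
    induction n with
    | zero => exact ⟨hv, rfl⟩
    | succ n ih =>
      rw [Function.iterate_succ_apply']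
      by_cases c : d (par^[n] v) = 0
      · rw [p2 _ c]
        exact ⟨ih.1, by omega⟩
      · have := p1 _ ih.1 c
        exact ⟨⟨_, this.1.symm⟩, by omega⟩
  let c : V → V := par^[2 * j]
  have c0 : ∀ v ∈ G.support, d (c v) = 0 := fun v hv => by
    have := (it (2 * j) v hv).2
    have := d3 v hv
    show d (par^[2 * j] v) = 0
    omega
  have c1 : ∀ v ∈ G.support, c v ∈ X := fun v hv => by
    obtain ⟨x, hx, p, hp⟩ := d1 _ (it (2 * j) v hv).1
    have : d (par^[2 * j] v) = 0 := c0 v hv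
    rwa [← Walk.eq_of_length_eq_zero (p := p) (by omega)] at hx
  have c2 : ∀ v ∈ G.support, c (par v) = c v := fun v hv => by
    show par^[2 * j] (par v) = _
    rw [← Function.iterate_succ_apply, Function.iterate_succ_apply']
    exact p2 _ (c0 v hv)
  have c3 : ∀ v, d v = 0 → c v = v := fun v h => Function.iterate_fixed (p2 v h) _
  have c4 : ∀ x ∈ X, c x = x := fun x hx => c3 x (Nat.le_zero.1 (d2 _ 0 _ hx .rfl))
  let T : SimpleGraph V := ⟨fun y z => G.Adj y z ∧ (par y = z ∨ par z = y),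
    ⟨fun _ _ h => ⟨h.1.symm, h.2.symm⟩⟩, ⟨fun _ h => h.1.ne rfl⟩⟩
  have t1 : ∀ y z, T.Adj y z → c y = c z := by
    rintro y z ⟨h, rfl | rfl⟩
    exacts [(c2 y ⟨_, h⟩).symm, c2 z ⟨_, h.symm⟩]
  let cell : V → Set V := fun x => {v | v ∈ G.support ∧ c v = x}
  have t2 : ∀ n, ∀ v ∈ G.support, d v = n → Wn T n v (c v) ∧ R G (cell (c v)) v (c v) := by
    intro n
    induction n with
    | zero =>
      intro v _ h
      rw [c3 v h]
      exact ⟨.rfl, .rfl⟩
    | succ n ih =>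
      intro v hv h
      obtain ⟨a, b⟩ := p1 v hv (by omega)
      have := ih (par v) ⟨_, a.symm⟩ (by omega)
      rw [c2 v hv] at this
      exact ⟨((Wn.adj (G := T) ⟨a, Or.inl rfl⟩).tr this.1).mono le_rfl (by omega),
        (R.adj (S := cell (c v)) a ⟨hv, rfl⟩ ⟨⟨_, a.symm⟩, c2 v hv⟩).tr this.2⟩
  have t3 : ∀ u ∈ G.support, ∀ v ∈ G.support, c u = c v → Wn T (4 * j) u v := fun u hu v hv e =>
    ((t2 _ u hu rfl).1.tr (e ▸ (t2 _ v hv rfl).1.symm)).mono le_rfl
      (by have := d3 u hu; have := d3 v hv; omega)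
  have t4 : ∀ u v, ¬ T.Adj u v → T ≤ G.deleteEdges {s(u, v)} := fun u v h a b e =>
    deleteEdges_adj.2 ⟨e.1, fun q => h (by
      rcases Sym2.eq_iff.1 (show s(a, b) = s(u, v) from q) with ⟨rfl, rfl⟩ | ⟨rfl, rfl⟩
      exacts [e, e.symm])⟩
  have t5 : ∀ u v, G.Adj u v → c u = c v → v ≠ par u → par v = u := by
    intro u v e h n
    by_contra n'
    refine ns u v e ((t3 u ⟨_, e⟩ v ⟨_, e.symm⟩ h).mono (t4 u v ?_) (by omega))
    rintro ⟨-, q | q⟩
    exacts [n q.symm, n' q]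
  have t6 : ∀ u u' v v', G.Adj u u' → G.Adj v v' → c u = c v → c u' = c v' → c u ≠ c u' →
      u = v ∧ u' = v' := by
    intro u u' v v' e e' h h' n
    by_contra m
    have l := t4 u u' fun q => n (t1 _ _ q)
    refine ns u u' e (((((t3 u ⟨_, e⟩ v ⟨_, e'⟩ h).mono l le_rfl).tr (Wn.adj
      (deleteEdges_adj.2 ⟨e', fun q => ?_⟩))).tr
        ((t3 v' ⟨_, e'.symm⟩ u' ⟨_, e.symm⟩ h'.symm).mono l le_rfl)).mono le_rfl (by omega))
    rcases Sym2.eq_iff.1 (show s(v, v') = s(u, u') from q) with ⟨rfl, rfl⟩ | ⟨rfl, rfl⟩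
    exacts [m ⟨rfl, rfl⟩, n h]
  let Q : SimpleGraph V := ⟨fun x x' => x ≠ x' ∧ ∃ y z, G.Adj y z ∧ c y = x ∧ c z = x',
    ⟨fun _ _ ⟨h, y, z, e, p, q⟩ => ⟨h.symm, z, y, e.symm, q, p⟩⟩, ⟨fun _ h => h.1 rfl⟩⟩
  obtain ⟨v0, h0⟩ := ne
  refine ⟨Q, X, cell, ⟨_, c1 v0 h0⟩, ⟨?_, fun y _ z _ h => Set.disjoint_left.2 fun v p q =>
    h (p.2.symm.trans q.2), ?_⟩, fun x hx => ?_⟩
  · rintro _ ⟨_, -, y, z, e, rfl, -⟩
    refine ⟨⟨y, ⟨_, e⟩, rfl⟩, pre_root (c y) fun a ha => ?_⟩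
    have := (t2 _ a ha.1 rfl).2
    rw [ha.2] at this
    exact this.symm
  · rintro _ _ ⟨-, y, z, e, rfl, rfl⟩
    exact ⟨y, ⟨⟨_, e⟩, rfl⟩, z, ⟨⟨_, e.symm⟩, rfl⟩, e⟩
  let A : Finset V := Finset.univ.filter fun v => v ∈ G.support ∧ c v = x
  let N : V → Finset V := fun y => (G.neighborFinset y).erase (par y)
  have hN : ∀ y ∈ G.support, 2 ≤ (N y).card := fun y hy => by
    have a := deg y hy
    have b := Finset.pred_card_le_card_erase (s := G.neighborFinset y) (a := par y)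
    rw [← Set.ncard_coe_finset (G.neighborFinset y), coe_neighborFinset] at b
    show 2 ≤ ((G.neighborFinset y).erase (par y)).card
    omega
  have mN : ∀ y z, z ∈ N y ↔ z ≠ par y ∧ G.Adj y z := fun y z => by simp [N]
  have lay : ∀ i ≤ j, 2 ^ i ≤ (A.filter fun v => d v = i).card := by
    intro i hi
    induction i with
    | zero =>
      exact Finset.card_pos.2 ⟨x, by
        simp [A, x1 hx, c4 x hx, Nat.le_zero.1 (d2 _ 0 _ hx .rfl)]⟩
    | succ i ih =>
      have a := Finset.sum_card_fiberwise_eq_card_filter (A.filter fun v => d v = i + 1)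
        (A.filter fun v => d v = i) par
      have b := Finset.card_nsmul_le_sum (A.filter fun v => d v = i)
        (fun y => ((A.filter fun v => d v = i + 1).filter fun v => par v = y).card) 2 fun y hy => by
          simp only [A, Finset.mem_filter, Finset.mem_univ, true_and] at hy
          refine (hN y hy.1.1).trans (Finset.card_le_card fun z hz => ?_)
          obtain ⟨z1, z2⟩ := (mN y z).1 hz
          have zs : z ∈ G.support := ⟨_, z2.symm⟩
          have w1 : Wn G (1 + i) z x := (Wn.adj z2.symm).tr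
            (hy.1.2 ▸ (t2 _ y hy.1.1 hy.2).1.mono (fun _ _ h => h.1) le_rfl)
          have w2 := d2 _ _ _ hx w1
          have w3 : c z = x := x2 _ (c1 z zs) _ hx
            ((((t2 _ z zs rfl).1.mono (fun _ _ h => h.1) le_rfl).symm.tr w1).mono le_rfl (by omega))
          have w4 := t5 y z z2 (hy.1.2.trans w3.symm) z1
          have w5 := p1 z zs fun q => z2.ne (w4.symm.trans (p2 z q))
          rw [w4] at w5
          simp only [A, Finset.mem_filter, Finset.mem_univ, true_and]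
          exact ⟨⟨⟨zs, w3⟩, by omega⟩, w4⟩
      rw [a, smul_eq_mul] at b
      have := Finset.card_filter_le (A.filter fun v => d v = i + 1)
        fun v => par v ∈ A.filter fun v => d v = i
      have := ih (by omega)
      omega
  have a := Finset.sum_card_fiberwise_eq_card_filter A A par
  have b := Finset.card_nsmul_le_sum A (fun y => (A.filter fun v => par v = y).card +
    ((N y).filter fun z => c z ≠ x).card) 2 fun y hy => by
      simp only [A, Finset.mem_filter, Finset.mem_univ, true_and] at hy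
      refine (hN y hy.1).trans ((Finset.card_le_card fun z hz => ?_).trans (Finset.card_union_le _ _))
      obtain ⟨z1, z2⟩ := (mN y z).1 hz
      by_cases e : c z = x
      · exact Finset.mem_union_left _ (by
          simp [A, e, t5 y z z2 (hy.2.trans e.symm) z1, show z ∈ G.support from ⟨_, z2.symm⟩])
      · exact Finset.mem_union_right _ (by simp [hz, e])
  rw [Finset.sum_add_distrib, a, smul_eq_mul, ← Finset.card_sigma] at b
  have e := Finset.card_filter_le A fun v => par v ∈ A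
  have f := (lay j le_rfl).trans (Finset.card_filter_le _ _)
  have g : (A.sigma fun y => (N y).filter fun z => c z ≠ x).card ≤ (Q.neighborSet x ∩ X).ncard := by
    rw [← Set.ncard_coe_finset]
    refine Set.ncard_le_ncard_of_injOn (fun p => c p.2) ?_ ?_
    · rintro ⟨y, z⟩ h
      simp only [A, Finset.coe_sigma, Set.mem_sigma_iff, Finset.coe_filter, Finset.mem_univ,
        true_and, Set.mem_setOf_eq, mN] at h
      exact ⟨⟨h.2.2.symm, y, z, h.2.1.2, h.1.2, rfl⟩, c1 z ⟨_, h.2.1.2.symm⟩⟩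
    · rintro ⟨y, z⟩ h ⟨y', z'⟩ h' e
      simp only [A, Finset.coe_sigma, Set.mem_sigma_iff, Finset.coe_filter, Finset.mem_univ,
        true_and, Set.mem_setOf_eq, mN] at h h'
      obtain ⟨rfl, rfl⟩ := t6 y z y' z' h.2.1.2 h'.2.1.2 (h.1.2.trans h'.1.2.symm) e
        (h.1.2 ▸ h.2.2.symm)
      rfl
  omega

end Pool.Agent.H.MP_420e77_co
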