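import Pool.Agent.H.MP_420e77_co.E

namespace Pool.Agent.H.MP_420e77_co

open SimpleGraph Pool.Agent.H.MP_31fefb_co

variable {V : Type} {G G' : SimpleGraph V}

lemma walk_card {a b : V} (p : G.Walk a b) (y : V) :
    (insert y {z | z ∈ p.support}).ncard ≤ p.length + 2 := by
  classical
  refine (Set.ncard_insert_le _ _).trans (Nat.succ_le_succ ?_)
  rw [← List.coe_toFinset, Set.ncard_coe_finset, ← p.length_support]
  exact List.toFinset_card_le _

lemma lemB [Finite V] {k s j : ℕ} (hs : 1 ≤ s) (hj : 3 * k + s ≤ 2 ^ j) (n : ℕ) :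
    ∀ G : SimpleGraph V, G.support.ncard = n → TD G 2 ∨ IsMinor (HH k s) G ∨
      ∃ C, Cyc G C ∧ ∀ w, 2 ≤ w → TD (del G C) w → TD G (w + (8 * j + 3)) := by
  classical
  induction n using Nat.strong_induction_on with
  | _ n ih =>
  intro G hn
  rcases G.support.eq_empty_or_nonempty with ne | ne
  · exact Or.inl ⟨_, Tr.single ∅, fun u v e => absurd (show u ∈ G.support from ⟨v, e⟩)
      (by simp [ne]), by simp⟩
  by_cases deg : ∀ v ∈ G.support, 3 ≤ (G.neighborSet v).ncard
  · by_cases ns : ∀ u v, G.Adj u v → ¬ Wn (G.deleteEdges {s(u, v)}) (8 * j + 1) u v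
    · obtain ⟨Q, X, c, h1, h2, h3⟩ := voronoi j ne deg ns
      obtain ⟨B, hB⟩ := greedy hs k Q X h1 fun x hx => hj.trans (h3 x hx)
      exact Or.inr (Or.inl ⟨_, h2.model (HH_supp hs) hB⟩)
    · push Not at ns
      obtain ⟨u, v, e, p, hp⟩ := ns
      have h1 := p.bypass_isPath
      have h2 := p.length_bypass_le_length.trans hp
      generalize p.bypass = q at h1 h2
      cases q with
      | nil => exact absurd rfl e.ne
      | @cons _ a _ e' q =>
        rw [deleteEdges_adj] at e'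
        rw [Walk.cons_isPath_iff] at h1
        have := walk_card (q.mapLe (G.deleteEdges_le _)) u
        refine Or.inr (Or.inr ⟨_, cyc_of_walk (q.mapLe (G.deleteEdges_le _))
          (fun c => e'.2 (by rw [c]; rfl)) (by simpa using h1.2) e'.1 e,
          fun w _ h => h.add.mono le_rfl ?_⟩)
        rw [Walk.length_cons] at h2
        rw [Walk.length_mapLe] at this
        omega
  push Not at deg
  obtain ⟨u, ⟨a, ha⟩, hu⟩ := deg
  replace ha : G.Adj u a := ha
  obtain ⟨b, hb, hab⟩ : ∃ b, G.Adj u b ∧ ∀ y, G.Adj u y → y = a ∨ y = b := by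
    by_cases c : ∃ b, G.Adj u b ∧ b ≠ a
    · obtain ⟨b, h1, h2⟩ := c
      refine ⟨b, h1, fun y hy => ?_⟩
      by_contra m
      push Not at m
      exact absurd ((Set.two_lt_ncard_iff (Set.toFinite _)).2
        ⟨a, b, y, ha, h1, hy, h2.symm, m.1.symm, m.2.symm⟩) (show ¬ 2 < (G.neighborSet u).ncard by omega)
    · push Not at c
      exact ⟨a, ha, fun y hy => Or.inl (c y hy)⟩
  have sp : ∀ y ∈ (sup G u a b).support, y ∈ G.support ∧ y ≠ u := by
    rintro y ⟨z, e | e⟩
    · exact ⟨⟨z, e.1⟩, e.2.1⟩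
    · rcases ((edge_adj _ _ _ _).1 e).1 with ⟨rfl, -⟩ | ⟨rfl, -⟩
      exacts [⟨⟨u, ha.symm⟩, ha.ne'⟩, ⟨⟨u, hb.symm⟩, hb.ne'⟩]
  have l : Lift (sup G u a b) G fun y => if y = a then {a, u} else {y} := by
    have m : ∀ y, y ∈ (if y = a then {a, u} else {y} : Set V) := fun y => by
      split_ifs with c <;> simp [c]
    refine ⟨fun y _ => ⟨⟨y, m y⟩, ?_⟩, fun y hy z hz e => ?_, ?_⟩
    · beta_reduce
      split_ifs
      · exact pre_root a (by
          rintro _ (rfl | rfl)
          exacts [.rfl, .adj ha.symm (Or.inl rfl) (Or.inr rfl)])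
      · exact pre_single y
    · have := (sp y hy).2
      have := (sp z hz).2
      beta_reduce
      split_ifs with c c' c' <;> simp_all [eq_comm]
    · rintro y z (e | e)
      · exact ⟨y, m y, z, m z, e.1⟩
      · obtain ⟨⟨rfl, rfl⟩ | ⟨rfl, rfl⟩, e⟩ := (edge_adj _ _ _ _).1 e
        · exact ⟨u, by simp, z, m z, hb⟩
        · exact ⟨y, m y, u, by simp, hb.symm⟩
  rcases ih _ (hn ▸ Set.ncard_lt_ncard ⟨fun y hy => (sp y hy).1,
    fun c => (sp u (c ⟨a, ha⟩)).2 rfl⟩) (sup G u a b) rfl with h | ⟨B, h⟩ | ⟨C, ⟨B, h, h'⟩, hC⟩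
  · exact Or.inl (h.unsup le_rfl ha.ne hb.ne hab)
  · exact Or.inr (Or.inl ⟨_, l.model (HH_supp hs) h⟩)
  have sB := supp_model top_supp h
  by_cases c : a ∈ C ∨ b ∈ C
  · refine Or.inr (Or.inr ⟨insert u C, ⟨_, l.model top_supp h, fun i => Set.iUnion₂_subset
      fun y hy => ?_⟩, fun w hw t => (hC w hw (t.mono ?_ le_rfl)).unsup (by omega) ha.ne hb.ne hab⟩)
    · have := h' i hy
      split_ifs with e
      · rintro _ (rfl | rfl)
        exacts [Or.inr (e ▸ this), Or.inl rfl]
      · rintro _ rfl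
        exact Or.inr this
    · rintro x y ⟨e | e, p, q⟩
      · exact ⟨e.1, by simpa [p] using e.2.1, by simpa [q] using e.2.2⟩
      · rcases ((edge_adj _ _ _ _).1 e).1 with ⟨rfl, rfl⟩ | ⟨rfl, rfl⟩ <;> tauto
  · push Not at c
    refine Or.inr (Or.inr ⟨C \ {u}, ⟨_, l.model top_supp h, fun i => Set.iUnion₂_subset
      fun y hy => ?_⟩, fun w hw t => (hC w hw ((t.contract (u := u) (a := a) (b := b)
        ⟨ha, by simp, by simp [c.1]⟩ ⟨hb, by simp, by simp [c.2]⟩).mono ?_ le_rfl)).unsup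
          (by omega) ha.ne hb.ne hab⟩)
    · have := h' i hy
      rw [if_neg fun e : y = a => c.1 (e ▸ this)]
      rintro _ rfl
      exact ⟨this, (sp _ (sB i hy)).2⟩
    · rintro x y ⟨e | e, p, q⟩
      · exact Or.inl ⟨⟨e.1, fun h => p h.1, fun h => q h.1⟩, e.2⟩
      · exact Or.inr e

lemma phase [Finite V] {g s j w t : ℕ} (hg : 1 ≤ g) (e : s = (2 ^ 70 * g) ^ 2) (hw : s ≤ w + g)
    (hw2 : 2 ≤ w) (hj : 3 * t + s ≤ 2 ^ j) : ∀ k ≤ t, ∀ G : SimpleGraph V, C4 G →
      ¬ IsMinor (HH k s) G → TD G (w + k * (8 * j + 3)) := by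
  have hs : 1 ≤ s := by rw [e]; exact Nat.one_le_pow _ _ (by omega)
  intro k hk
  induction k with
  | zero => exact fun G c h => by simpa using gain hg e hw (nostar h) c
  | succ k ih =>
    intro G c h
    rcases lemB (k := k + 1) (j := j) hs (by omega) _ G rfl with a | a | ⟨C, a, b⟩
    · exact a.mono le_rfl (by omega)
    · exact absurd a h
    · refine (b _ (by omega) (ih (by omega) _ (fun a b x y n p q r s =>
        c a b x y n p.1 q.1 r.1 s.1) fun m => h (extend hs a m))).mono le_rfl (le_of_eq ?_)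
      ring

lemma upper [Finite V] {g s j t : ℕ} (hg : 1 ≤ g) (e : s = (2 ^ 70 * g) ^ 2)
    (hj : 3 * t + s ≤ 2 ^ j) (ht : t * (8 * j + 3) ≤ g) : ∀ k ≤ t, ∀ G : SimpleGraph V,
      ¬ IsMinor (HH k s) G → TD G (s + 4 * k) := by
  have hs : g + 2 ≤ s := by rw [e]; nlinarith
  intro k hk
  induction k with
  | zero => exact fun G h => plain (nostar h) (by omega)
  | succ k ih =>
    intro G h
    by_cases c : C4 G
    · refine (phase (w := s - g) hg e (by omega) (by omega) hj _ hk G c h).mono le_rfl ?_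
      have := Nat.mul_le_mul_right (8 * j + 3) hk
      omega
    · unfold C4 at c
      push Not at c
      obtain ⟨a, b, x, y, n, p, q, r, s', m⟩ := c
      have := walk_card (Walk.cons r.symm (Walk.cons s' .nil)) a
      have cy := cyc_of_walk (Walk.cons r.symm (Walk.cons s' .nil)) m
        (by simp [n, p.ne, q.ne]) p q
      refine (ih (by omega) _ fun m => h (extend (by omega) cy m)).add.mono le_rfl ?_
      simp only [Walk.length_cons, Walk.length_nil] at this
      omega

end Pool.Agent.H.MP_420e77_co
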