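import Pool.Agent.H.MP_420e77_co.F
import Pool.Agent.Lib.helper5.Book

namespace Pool.Agent.H.MP_420e77_co

open SimpleGraph Pool.Agent.H.MP_31fefb_co Pool.Agent.Lib.helper5.Book

variable {V W : Type}

/-- Tree-width. -/
noncomputable def tw (G : SimpleGraph V) : ℕ := sInf {w | HasTreeDec G w}

/-- Every finite graph of tree-width at least `w` has an `H` minor. -/
def Forces (H : SimpleGraph W) (w : ℕ) : Prop :=
  ∀ (V : Type) [Finite V] (G : SimpleGraph V), w ≤ tw G → IsMinor H G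

/-- The threshold `f(H)`. -/
noncomputable def f (H : SimpleGraph W) : ℕ := sInf {w | Forces H w}

/-- `H` with a new vertex `none` whose only neighbour is `v`. -/
def pend (H : SimpleGraph W) (v : W) : SimpleGraph (Option W) :=
  fromRel fun a b => (∃ x y, a = some x ∧ b = some y ∧ H.Adj x y) ∨ (a = none ∧ b = some v)

lemma planar (t s : ℕ) : Planar (HH t s) := by
  refine book _ (Sum.elim (fun a => 3 * a.1.val + a.2.val)
    fun o => o.elim (3 * t) fun l => 3 * t + 1 + l.val) ?_ (fun _ _ => true) ?_ ?_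
  · rintro (⟨i, c⟩ | _ | l) (⟨j, d⟩ | _ | m) h <;>
      simp only [Sum.elim_inl, Sum.elim_inr, Option.elim] at h <;>
      simp only [Sum.inl.injEq, Sum.inr.injEq, Prod.mk.injEq, Option.some.injEq, Fin.ext_iff,
        reduceCtorEq] <;> omega
  · rintro _ _ (⟨i, c, d, rfl, rfl, e⟩ | ⟨rfl, l, rfl⟩) <;>
      simp only [Sum.elim_inl, Sum.elim_inr, Option.elim] <;> omega
  · rintro _ _ _ _ (⟨i, c, d, rfl, rfl, e⟩ | ⟨rfl, l, rfl⟩)
      (⟨j, c', d', rfl, rfl, e'⟩ | ⟨rfl, m, rfl⟩) - <;>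
      simp only [Sum.elim_inl, Sum.elim_inr, Option.elim] <;> omega

lemma HH_hom {t s : ℕ} {H : SimpleGraph W} (φ : (Fin t × Fin 3) ⊕ Option (Fin s) → W)
    (h1 : ∀ i c d, c ≠ d → H.Adj (φ (.inl (i, c))) (φ (.inl (i, d))))
    (h2 : ∀ l, H.Adj (φ (.inr none)) (φ (.inr (some l)))) (a b) (h : (HH t s).Adj a b) :
    H.Adj (φ a) (φ b) := by
  obtain ⟨-, (⟨i, c, d, rfl, rfl, e⟩ | ⟨rfl, l, rfl⟩) | (⟨i, c, d, rfl, rfl, e⟩ | ⟨rfl, l, rfl⟩)⟩ := h
  exacts [h1 i c d e.ne, h2 l, h1 i d c e.ne', (h2 l).symm]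

lemma down {t s s' : ℕ} (h : s ≤ s') {G : SimpleGraph V} (m : IsMinor (HH t s') G) :
    IsMinor (HH t s) G :=
  minor_comap (Sum.map id (Option.map (Fin.castLE h)))
    (Function.injective_id.sumMap (Option.map_injective (Fin.castLE_injective h)))
    (HH_hom _ (fun i _ _ e => HH_l i e) fun _ => HH_r _) m

lemma pend_iff {t s : ℕ} {G : SimpleGraph V} :
    IsMinor (pend (HH t s) (.inr none)) G ↔ IsMinor (HH t (s + 1)) G := by
  have a : ∀ x y, (HH t s).Adj x y → (pend (HH t s) (.inr none)).Adj (some x) (some y) :=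
    fun x y h => ⟨by simpa using h.ne, Or.inl (Or.inl ⟨x, y, rfl, rfl, h⟩)⟩
  constructor
  · refine minor_comap (Sum.elim (fun x => some (.inl x)) fun o => o.elim (some (.inr none))
      fun l => Fin.cases none (fun l => some (.inr (some l))) l) ?_
      (HH_hom _ (fun i _ _ e => a _ _ (HH_l i e)) fun l => ?_)
    · rintro (x | _ | l) (y | _ | m) e
      · simpa using e
      · simp at e
      · induction m using Fin.cases <;> simp at e
      · simp at e
      · rfl
      · induction m using Fin.cases <;> simp at e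
      · induction l using Fin.cases <;> simp at e
      · induction l using Fin.cases <;> simp at e
      · induction l using Fin.cases <;> induction m using Fin.cases <;> simp_all
    · induction l using Fin.cases
      · exact ⟨by simp, Or.inr (Or.inr ⟨rfl, rfl⟩)⟩
      · exact a _ _ (HH_r _)
  · refine minor_comap (fun o => o.elim (.inr (some 0)) (Sum.map id (Option.map Fin.succ))) ?_ ?_
    · rintro (_ | x | _ | l) (_ | y | _ | m) e <;> 
        simp_all [Fin.succ_ne_zero, (Fin.succ_ne_zero _).symm]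
    · have b := HH_hom (t := t) (s := s) (H := HH t (s + 1)) (Sum.map id (Option.map Fin.succ))
        (fun i _ _ e => HH_l i e) fun _ => HH_r _
      rintro _ _ ⟨-, (⟨x, y, rfl, rfl, h⟩ | ⟨rfl, rfl⟩) | (⟨x, y, rfl, rfl, h⟩ | ⟨rfl, rfl⟩)⟩
      exacts [b x y h, (HH_r 0).symm, b y x h.symm, HH_r 0]

lemma count {t s : ℕ} [Finite V] {G : SimpleGraph V}
    (hG : ∀ a b c, G.Adj a b → G.Adj b c → G.Adj c a → False) (c4 : C4 G)
    (h : IsMinor (HH t s) G) : 5 * t ≤ Nat.card V := by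
  obtain ⟨B, hB⟩ := h
  have five : ∀ i, ∃ g : Fin 5 → V, Function.Injective g ∧ ∀ c, g c ∈ ⋃ e, B (.inl (i, e)) := by
    intro i
    rcases cyc (fun e => B (.inl (i, e))) ⟨fun _ => hB.1 _, fun x y h => hB.2.1 _ _
      (by simpa using h), fun x y h => hB.2.2 _ _ (HH_l i h.ne)⟩
      fun c => Set.subset_iUnion (fun e => B (.inl (i, e))) c with ⟨τ, -, h⟩ |
      ⟨a, b, c, v, d, D, -, k2, k3, k4, k5, k6, k7, k8, k9, k10, k11, m1, m2, m3, m4⟩
    · exact (hG _ _ _ (h 0 1 (by simp)) (h 1 2 (by simp)) (h 2 0 (by simp))).elim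
    · have n1 : a ≠ v := fun e => k3 (e ▸ k6)
      have n2 : b ≠ v := fun e => k4 (e ▸ k6)
      have n3 : c ≠ v := fun e => k5 (e ▸ k6)
      have n4 : a ≠ d := fun e => k3 (e ▸ k7)
      have n5 : b ≠ d := fun e => k4 (e ▸ k7)
      have n6 : v ≠ d := fun e => n2 (c4 a c b v k2 k9 k8.symm k10.symm (e ▸ k11))
      refine ⟨![a, b, c, v, d], ?_, fun e => ?_⟩
      · have : [a, b, c, v, d].Nodup := by simp [k9.ne, k10.ne, k11.ne, *]
        exact List.nodup_ofFn.1 (by simpa using this)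
      · fin_cases e
        exacts [m1, m2, m3, m4 k6, m4 k7]
  choose g h1 h2 using five
  have := Nat.card_le_card_of_injective (fun x : Fin t × Fin 5 => g x.1 x.2) fun x y e => by
    have e : g x.1 x.2 = g y.1 y.2 := e
    have q : x.1 = y.1 := by
      obtain ⟨c, p⟩ := Set.mem_iUnion.1 (h2 x.1 x.2)
      obtain ⟨c', p'⟩ := Set.mem_iUnion.1 (h2 y.1 y.2)
      by_contra n
      exact Set.disjoint_left.1 (hB.2.1 (.inl (x.1, c)) (.inl (y.1, c')) (by simp [n])) p (e ▸ p')
    refine Prod.ext q (h1 x.1 ?_)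
    rw [e, q]
  simpa [mul_comm] using this

instance : Fact (Nat.Prime 2503) := ⟨by norm_num⟩

/-- The second coordinate: the inverse of `i + 1`. -/
def iv (i : Fin 834) : ZMod 2503 := ((i.val + 1 : ℕ) : ZMod 2503)⁻¹

lemma nz {n : ℕ} (h0 : 0 < n) (h : n < 2503) : (n : ZMod 2503) ≠ 0 := by
  rw [Ne, ZMod.natCast_eq_zero_iff]
  exact fun e => absurd (Nat.le_of_dvd h0 e) (by omega)

lemma iv_inj : Function.Injective iv := fun a b h => Fin.ext (by
  have := (ZMod.natCast_eq_natCast_iff' _ _ _).1 (inv_injective h)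
  omega)

/-- An expander of girth five. -/
def G0 : SimpleGraph (ZMod 2503 × Fin 834) where
  Adj a b := a ≠ b ∧ iv a.2 + iv b.2 = (a.1 - b.1) ^ 2
  symm := ⟨fun a b h => ⟨h.1.symm, by linear_combination h.2⟩⟩
  loopless := ⟨fun a h => h.1 rfl⟩

lemma trifree (a b c) (h1 : G0.Adj a b) (h2 : G0.Adj b c) (h3 : G0.Adj c a) : False := by
  have e1 := h1.2
  have e2 := h2.2
  have e3 := h3.2
  have u : ∀ i : Fin 834, ((i.val + 1 : ℕ) : ZMod 2503) * iv i = 1 := fun i =>
    mul_inv_cancel₀ (nz (by omega) (by omega))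
  have k : 4 * (iv a.2 * iv b.2 + iv b.2 * iv c.2 + iv c.2 * iv a.2) = 0 := by
    have : 4 * (iv a.2 * iv b.2 + iv b.2 * iv c.2 + iv c.2 * iv a.2) =
        4 * (iv a.2 + iv b.2) * (iv b.2 + iv c.2) -
          ((iv a.2 + iv b.2) + (iv b.2 + iv c.2) - (iv c.2 + iv a.2)) ^ 2 := by ring
    rw [this, e1, e2, e3]
    ring
  have k' := (mul_eq_zero.1 k).resolve_left (nz (n := 4) (by omega) (by omega))
  have ua := u a.2
  have ub := u b.2
  have uc := u c.2
  refine nz (n := (a.2.val + 1) + (b.2.val + 1) + (c.2.val + 1)) (by omega) (by omega) ?_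
  rw [Nat.cast_add, Nat.cast_add]
  generalize ((a.2.val + 1 : ℕ) : ZMod 2503) = x at *
  generalize ((b.2.val + 1 : ℕ) : ZMod 2503) = y at *
  generalize ((c.2.val + 1 : ℕ) : ZMod 2503) = z at *
  linear_combination x * y * z * k' - z * y * iv b.2 * ua - z * ub - x * z * iv c.2 * ub - x * uc -
    y * x * iv a.2 * uc - y * ua

lemma c4free : C4 G0 := by
  intro a b x y n h1 h2 h3 h4
  have e : 2 * (a.1 - b.1) * (x.1 - y.1) = 0 := by
    linear_combination h1.2 - h2.2 - h3.2 + h4.2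
  rcases mul_eq_zero.1 e with e | e
  · have e := sub_eq_zero.1 ((mul_eq_zero.1 e).resolve_left (nz (n := 2) (by omega) (by omega)))
    exact absurd (Prod.ext e (iv_inj (by linear_combination h1.2 - h3.2 +
      (a.1 + b.1 - 2 * x.1) * e))) n
  · have e := sub_eq_zero.1 e
    exact Prod.ext e (iv_inj (by linear_combination h1.2 - h2.2 + (x.1 + y.1 - 2 * a.1) * e))

lemma expand (A B : Set (ZMod 2503 × Fin 834)) (hA : 125300 ≤ A.ncard) (hB : 125300 ≤ B.ncard) :
    ∃ a ∈ A, ∃ b ∈ B, a = b ∨ G0.Adj a b := by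
  classical
  by_contra hc
  let e : ZMod 2503 × Fin 834 → ZMod 2503 × ZMod 2503 := fun a => (a.1, iv a.2)
  have he : Function.Injective e := fun a b h =>
    Prod.ext (Prod.ext_iff.1 h).1 (iv_inj (Prod.ext_iff.1 h).2)
  have := incid 2503 (nz (n := 2) (by omega) (by omega)) (e '' A).toFinset (e '' B).toFinset (by
    simp only [Set.mem_toFinset]
    rintro _ ⟨a, ha, rfl⟩ _ ⟨b, hb, rfl⟩ h
    exact hc ⟨a, ha, b, hb, or_iff_not_imp_left.2 fun n => ⟨n, h⟩⟩)
  rw [← Set.ncard_eq_toFinset_card', ← Set.ncard_eq_toFinset_card',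
    Set.ncard_image_of_injective _ he, Set.ncard_image_of_injective _ he] at this
  have := Nat.mul_le_mul hA hB
  omega

lemma cardV : Nat.card (ZMod 2503 × Fin 834) = 2087502 := by simp

lemma lower : 4 * 417501 + 1 ≤ tw G0 := by
  have ne : {w | HasTreeDec G0 w}.Nonempty := ⟨_, dec_of_noLC Set.univ (by
    rintro ⟨a, -, -, -, -, -, -, -, -, -, -, -, -, -, -, -, -, m, -⟩
    simp at m)⟩
  by_contra h
  exact no_dec 125300 (tw G0) expand (by rw [cardV]; omega) (by omega) (Nat.sInf_mem ne)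

lemma chain {t s : ℕ} (h1 : Forces (HH t s) (s + 4 * t + 1))
    (h2 : ∀ w, Forces (HH t 0) w → 4 * t + 2 ≤ w) : ∃ i, (∃ w, Forces (HH t (i + 1)) w) ∧
      (∃ w, Forces (HH t i) w) ∧ f (HH t (i + 1)) = f (HH t i) := by
  have a : ∀ i ≤ s, {w | Forces (HH t i) w}.Nonempty := fun i hi =>
    ⟨_, fun V _ G h => down hi (h1 V G h)⟩
  by_contra c
  have b : ∀ i ≤ s, 4 * t + 2 + i ≤ f (HH t i) := by
    intro i hi
    induction i with
    | zero => exact h2 _ (Nat.sInf_mem (a 0 hi))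
    | succ i ih =>
      have p : f (HH t i) ≤ f (HH t (i + 1)) :=
        Nat.sInf_le fun V _ G h => down (Nat.le_succ i) (Nat.sInf_mem (a _ hi) V G h)
      have q : f (HH t (i + 1)) ≠ f (HH t i) := fun e => c ⟨i, a _ hi, a _ (by omega), e⟩
      have := ih (by omega)
      omega
  have := (b s le_rfl).trans (Nat.sInf_le h1)
  omega

end Pool.Agent.H.MP_420e77_co
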